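import Pool.Agent.H731_RK.Res

open Topology Metric Set Filter

namespace Pool.Agent.H731_RK

lemma bidisc {A a b c : ℂ}
    (h : ∀ s t : ℂ, ‖s‖ ≤ 1 → ‖t‖ ≤ 1 → A + s * a + t * b + s * t * c ≠ 0) : ‖c‖ ≤ ‖A‖ := by
  have h1 : ∀ s : ℂ, ‖s‖ ≤ 1 → ‖b + s * c‖ ≤ ‖A + s * a‖ := by
    intro s hs
    by_contra hlt
    push Not at hlt
    have hne : b + s * c ≠ 0 := norm_pos_iff.mp ((norm_nonneg _).trans_lt hlt)
    refine h s (-(A + s * a) / (b + s * c)) hs ?_ ?_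
    · rw [norm_div, norm_neg, div_le_one (norm_pos_iff.mpr hne)]; exact hlt.le
    · field_simp; ring
  have h2 : ∀ t : ℂ, ‖t‖ ≤ 1 → ‖a + t * c‖ ≤ ‖A + t * b‖ := by
    intro t ht
    by_contra hlt
    push Not at hlt
    have hne : a + t * c ≠ 0 := norm_pos_iff.mp ((norm_nonneg _).trans_lt hlt)
    refine h (-(A + t * b) / (a + t * c)) t ?_ ht ?_
    · rw [norm_div, norm_neg, div_le_one (norm_pos_iff.mpr hne)]; exact hlt.le
    · field_simp; ring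
  have e1 := h1 1 (by simp)
  have e2 := h1 (-1) (by simp)
  have e3 := h2 1 (by simp)
  have e4 := h2 (-1) (by simp)
  simp only [one_mul, neg_mul, ← sub_eq_add_neg] at e1 e2 e3 e4
  have p1 := parallelogram_law_with_norm ℂ b c
  have p2 := parallelogram_law_with_norm ℂ A a
  have p3 := parallelogram_law_with_norm ℂ a c
  have p4 := parallelogram_law_with_norm ℂ A b
  have q1 := mul_le_mul e1 e1 (norm_nonneg _) (norm_nonneg _)
  have q2 := mul_le_mul e2 e2 (norm_nonneg _) (norm_nonneg _)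
  have q3 := mul_le_mul e3 e3 (norm_nonneg _) (norm_nonneg _)
  have q4 := mul_le_mul e4 e4 (norm_nonneg _) (norm_nonneg _)
  exact abs_le_of_sq_le_sq' (by nlinarith) (norm_nonneg _) |>.2

variable {X : Type*} [NormedAddCommGroup X] [NormedSpace ℂ X]

/-- The resolvent of `T` at `z₀` has at most a pole: a punctured neighbourhood of `z₀` is contained in
the resolvent set, and there the norm of the resolvent is at most a multiple of `|z - z₀|⁻ⁿ`. -/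
def AtMostPole (T : X →L[ℂ] X) (z₀ : ℂ) : Prop :=
  ∃ (n : ℕ) (C : ℝ), ∀ᶠ z in 𝓝[≠] z₀, z ∈ resolventSet ℂ T ∧ ‖resolvent T z‖ * ‖z - z₀‖ ^ n ≤ C

variable [CompleteSpace X]

lemma key {T : X →L[ℂ] X} {N : Set ℂ} (hN : IsOpen N) {O : Set (X × (X →L[ℂ] ℂ))}
    (hO : IsOpen O) (hno : ∀ p ∈ O, ¬ Good T p N) {p₀ : X × (X →L[ℂ] ℂ)} (hp : p₀ ∈ O) :
    ∃ C : ℝ, 0 < C ∧ ∀ z ∈ N, z ∈ resolventSet ℂ T → ‖resolvent T z‖ ≤ C * ‖fn T p₀ z - 1‖ := by
  obtain ⟨u, v⟩ := p₀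
  obtain ⟨e, he, hball⟩ := Metric.isOpen_iff.mp hO _ hp
  set ε := e / 2 with hε
  have hεpos : 0 < ε := by positivity
  refine ⟨(ε ^ 2)⁻¹, by positivity, fun z hzN hz => ?_⟩
  have h1 : ∀ (x : X) (y : X →L[ℂ] ℂ), ‖x‖ ≤ 1 → ‖y‖ ≤ 1 →
      ε ^ 2 * ‖y (resolvent T z x)‖ ≤ ‖fn T (u, v) z - 1‖ := by
    intro x y hx hy
    have h2 := bidisc (A := fn T (u, v) z - 1) (a := ε * v (resolvent T z x))
      (b := ε * y (resolvent T z u)) (c := ε ^ 2 * y (resolvent T z x)) ?_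
    · rwa [norm_mul, norm_pow, Complex.norm_real, Real.norm_of_nonneg hεpos.le] at h2
    intro s t hs ht
    have hmem : ((u + s • ((ε : ℂ) • x), v + t • ((ε : ℂ) • y)) : X × (X →L[ℂ] ℂ)) ∈ O := by
      apply hball
      rw [mem_ball, Prod.dist_eq, dist_eq_norm, dist_eq_norm]
      simp only [add_sub_cancel_left, norm_smul, Complex.norm_real, Real.norm_of_nonneg hεpos.le]
      have h3 : ‖s‖ * (ε * ‖x‖) ≤ 1 * (ε * 1) := by gcongr
      have h4 : ‖t‖ * (ε * ‖y‖) ≤ 1 * (ε * 1) := by gcongr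
      refine max_lt ?_ ?_ <;> linarith
    have h5 := sub_ne_zero.mpr (no_one hN hO hno hmem hzN hz)
    convert h5 using 1
    simp only [fn, map_add, map_smul, add_apply, smul_apply, smul_eq_mul]
    ring
  have h2 : ∀ x : X, ‖x‖ ≤ 1 → ‖resolvent T z x‖ ≤ (ε ^ 2)⁻¹ * ‖fn T (u, v) z - 1‖ := by
    intro x hx
    obtain ⟨g, hg, hgx⟩ := exists_dual_vector'' ℂ (resolvent T z x)
    have h3 := h1 x g hx hg
    rw [hgx] at h3
    have h4 : ‖((‖resolvent T z x‖ : ℝ) : ℂ)‖ = ‖resolvent T z x‖ := by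
      rw [Complex.norm_real, norm_norm]
    change ε ^ 2 * ‖((‖resolvent T z x‖ : ℝ) : ℂ)‖ ≤ _ at h3
    rw [h4] at h3
    rw [inv_mul_eq_div, le_div_iff₀ (by positivity)]
    linarith
  refine ContinuousLinearMap.opNorm_le_bound _ (by positivity) fun x => ?_
  by_cases hx : x = 0
  · simp [hx]
  have hxn : 0 < ‖x‖ := norm_pos_iff.mpr hx
  have h3 := h2 ((‖x‖⁻¹ : ℂ) • x) (by
    rw [norm_smul, norm_inv, Complex.norm_real, norm_norm, inv_mul_cancel₀ hxn.ne'])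
  rw [map_smul, norm_smul, norm_inv, Complex.norm_real, norm_norm, inv_mul_le_iff₀ hxn] at h3
  linarith

/-- The reciprocal function and its properties. -/
lemma recip {T : X →L[ℂ] X} {N : Set ℂ} (hN : IsOpen N) {O : Set (X × (X →L[ℂ] ℂ))}
    (hO : IsOpen O) (hno : ∀ p ∈ O, ¬ Good T p N) {p₀ : X × (X →L[ℂ] ℂ)} (hp : p₀ ∈ O) :
    ∃ (C : ℝ) (G : ℂ → ℂ), 0 < C ∧ (∀ z, G z = (fn T p₀ z - 1)⁻¹) ∧
      (∀ z ∈ N, z ∉ spectrum ℂ T → DifferentiableAt ℂ G z) ∧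
      (∀ z ∈ N, z ∉ spectrum ℂ T → G z ≠ 0) ∧
      (∀ z ∈ N, z ∉ spectrum ℂ T → ‖resolvent T z‖ * ‖G z‖ ≤ C) ∧
      (∀ z ∈ N, z ∉ spectrum ℂ T → ∀ μ ∈ spectrum ℂ T, ‖G z‖ ≤ C * ‖z - μ‖) := by
  obtain ⟨C, hC, hkey⟩ := key hN hO hno hp
  have hρ : ∀ z, z ∉ spectrum ℂ T → z ∈ resolventSet ℂ T := fun z hz => not_not.mp hz
  have hne : ∀ z ∈ N, z ∉ spectrum ℂ T → fn T p₀ z - 1 ≠ 0 := fun z hz hzs =>
    sub_ne_zero.mpr (no_one hN hO hno hp hz (hρ z hzs))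
  have hR : ∀ z ∈ N, z ∉ spectrum ℂ T → ‖resolvent T z‖ * ‖(fn T p₀ z - 1)⁻¹‖ ≤ C := by
    intro z hz hzs
    have h1 := hkey z hz (hρ z hzs)
    rw [norm_inv, ← div_eq_mul_inv, div_le_iff₀ (norm_pos_iff.mpr (hne z hz hzs))]
    exact h1
  refine ⟨C, fun z => (fn T p₀ z - 1)⁻¹, hC, fun _ => rfl, fun z hz hzs => ?_, fun z hz hzs => ?_,
    hR, ?_⟩
  · exact ((fn_diff p₀ (hρ z hzs)).sub_const 1).inv (hne z hz hzs)
  · exact inv_ne_zero (hne z hz hzs)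
  · intro z hz hzs μ hμ
    have h1 := res_dist (hρ z hzs) hμ
    have h2 := hR z hz hzs
    have h3 : 0 ≤ ‖z - μ‖ := norm_nonneg _
    calc ‖(fn T p₀ z - 1)⁻¹‖ = 1 * ‖(fn T p₀ z - 1)⁻¹‖ := (one_mul _).symm
      _ ≤ (‖resolvent T z‖ * ‖z - μ‖) * ‖(fn T p₀ z - 1)⁻¹‖ := by gcongr
      _ = (‖resolvent T z‖ * ‖(fn T p₀ z - 1)⁻¹‖) * ‖z - μ‖ := by ring
      _ ≤ C * ‖z - μ‖ := by gcongr

/-- Density, global version. -/
lemma dense_univ [Nontrivial X] (T : X →L[ℂ] X) :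
    Dense {p : X × (X →L[ℂ] ℂ) | Good T p univ} := by
  rw [dense_iff_inter_open]
  intro O hO hOne
  by_contra hemp
  have hno : ∀ p ∈ O, ¬ Good T p univ := fun p hp hg => hemp ⟨p, hp, hg⟩
  obtain ⟨p₀, hp⟩ := hOne
  obtain ⟨C, G, hC, hG, hd, hne, hR, hL⟩ := recip isOpen_univ hO hno hp
  obtain ⟨μ₀, hμ₀⟩ := spectrum.nonempty T
  have hlim : Tendsto (fun z => fn T p₀ z) (Bornology.cobounded ℂ) (𝓝 0) := by
    have h1 := spectrum.resolvent_tendsto_cobounded (𝕜 := ℂ) T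
    have h2 : Tendsto (fun z => resolvent T z p₀.1) (Bornology.cobounded ℂ) (𝓝 0) := by
      have h3 := ((ContinuousLinearMap.apply ℂ X p₀.1).continuous.tendsto 0).comp h1
      rw [map_zero] at h3
      exact h3
    have h4 := (p₀.2.continuous.tendsto 0).comp h2
    rw [map_zero] at h4
    exact h4
  have hev : ∀ᶠ z in Bornology.cobounded ℂ, ‖fn T p₀ z‖ < 1 / 2 := by
    have := hlim.norm
    rw [norm_zero] at this
    exact this.eventually (gt_mem_nhds (by norm_num))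
  rw [← comap_norm_atTop, eventually_comap] at hev
  obtain ⟨ρ₁, hρ₁⟩ := eventually_atTop.mp hev
  have h0 := global (spectrum.isClosed T) hμ₀ (G := G) (C := C) (M := 2) (ρ₁ := ρ₁)
    (fun z hz => hd z (mem_univ _) hz) (fun z hz => hL z (mem_univ _) hz) (by
      intro z hz hzn
      have h1 := hρ₁ ‖z‖ hzn z rfl
      rw [hG, norm_inv]
      have h2 : 1 / 2 ≤ ‖fn T p₀ z - 1‖ := by
        have := norm_sub_norm_le (1 : ℂ) (fn T p₀ z)
        rw [norm_one, norm_sub_rev] at this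
        linarith
      calc ‖fn T p₀ z - 1‖⁻¹ ≤ (1 / 2)⁻¹ := inv_anti₀ (by norm_num) h2
        _ = 2 := by norm_num)
  -- a point of the resolvent set
  have hz : ((‖T‖ + 1 : ℝ) : ℂ) ∉ spectrum ℂ T := by
    intro h
    have := spectrum.norm_le_norm_of_mem h
    rw [Complex.norm_real, Real.norm_of_nonneg (by positivity)] at this
    linarith
  exact hne _ (mem_univ _) hz (h0 _ hz)

/-- Density near a boundary point of the spectrum which is not a pole. -/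
lemma dense_local (T : X →L[ℂ] X) {z₀ : ℂ} (hz₀ : z₀ ∈ frontier (spectrum ℂ T))
    (hpole : ¬ AtMostPole T z₀) {N : Set ℂ} (hN : IsOpen N) (hzN : z₀ ∈ N) :
    Dense {p : X × (X →L[ℂ] ℂ) | Good T p N} := by
  rw [dense_iff_inter_open]
  intro O hO hOne
  by_contra hemp
  have hno : ∀ p ∈ O, ¬ Good T p N := fun p hp hg => hemp ⟨p, hp, hg⟩
  obtain ⟨p₀, hp⟩ := hOne
  obtain ⟨C, G, hC, hG, hd, hne, hR, hL⟩ := recip hN hO hno hp
  obtain ⟨e, he, hball⟩ := Metric.isOpen_iff.mp hN z₀ hzN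
  set r := e / 2 with hr
  have hrpos : 0 < r := by positivity
  have hrN : closedBall z₀ r ⊆ N := (closedBall_subset_ball (by rw [hr]; linarith)).trans hball
  have hS := spectrum.isClosed (𝕜 := ℂ) T
  have hz₀S : z₀ ∈ spectrum ℂ T := hS.frontier_subset hz₀
  by_cases hacc : ∃ᶠ w in 𝓝[≠] z₀, w ∈ spectrum ℂ T
  · have h0 := local_acc hS hz₀S hrpos (fun z hz hzs => hd z (hrN hz) hzs)
      (fun z hz hzs => hL z (hrN hz) hzs) hacc
    have hcl : z₀ ∈ closure (spectrum ℂ T)ᶜ := by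
      rw [frontier_eq_closure_inter_closure] at hz₀
      exact hz₀.2
    rw [Metric.mem_closure_iff] at hcl
    obtain ⟨w, hw, hwd⟩ := hcl (r / 4) (by positivity)
    have hwb : w ∈ ball z₀ (r / 4) := by rw [mem_ball, dist_comm]; exact hwd
    have hwc : w ∈ closedBall z₀ r := by
      rw [mem_ball] at hwb; rw [mem_closedBall]; linarith
    exact hne w (hrN hwc) hw (h0 w hwb hw)
  · rw [not_frequently] at hacc
    obtain ⟨n, c, hc, hev⟩ := local_iso hz₀S hrpos (fun z hz hzs => hd z (hrN hz) hzs)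
      (fun z hz hzs => hne z (hrN hz) hzs) (fun z hz hzs => hL z (hrN hz) hzs) hacc
    apply hpole
    refine ⟨n, C / c, ?_⟩
    filter_upwards [hacc, hev, nhdsWithin_le_nhds (closedBall_mem_nhds z₀ hrpos)] with z h1 h2 h3
    refine ⟨not_not.mp h1, ?_⟩
    rw [le_div_iff₀ hc]
    calc ‖resolvent T z‖ * ‖z - z₀‖ ^ n * c = ‖resolvent T z‖ * (c * ‖z - z₀‖ ^ n) := by ring
      _ ≤ ‖resolvent T z‖ * ‖G z‖ := by gcongr
      _ ≤ C := hR z (hrN h3) h1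

end Pool.Agent.H731_RK
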