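import Pool.Agent.H731_RK.Half
import Pool.Agent.H731_RK.Den

open Topology Metric Set Filter
open Polynomial (aeval)

namespace Pool.Agent.H731_RK

variable {X : Type*} [NormedAddCommGroup X] [NormedSpace ℂ X]

/-- An algebraic operator on an infinite-dimensional invariant linear manifold has an eigenspace of
infinite dimension there. -/
lemma exists_inf_eig (T : X →L[ℂ] X) (s : Multiset ℂ) : ∀ M : Submodule ℂ X,
    (∀ x ∈ M, T x ∈ M) → ¬ M.FG →
    (∀ x ∈ M, aeval T (s.map fun a => (Polynomial.X - Polynomial.C a : Polynomial ℂ)).prod x = 0) →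
    ∃ μ : ℂ, ¬ (M ⊓ LinearMap.ker (T - algebraMap ℂ (X →L[ℂ] X) μ).toLinearMap).FG := by
  induction s using Multiset.induction_on with
  | empty =>
    intro M _ hM h
    refine absurd ?_ hM
    have : M = ⊥ := by
      rw [Submodule.eq_bot_iff]
      intro x hx
      simpa using h x hx
    rw [this]
    exact Submodule.fg_bot
  | cons a s ih =>
    intro M hT hM h
    by_cases hfg : (M ⊓ LinearMap.ker (T - algebraMap ℂ (X →L[ℂ] X) a).toLinearMap).FG
    · set A : X →L[ℂ] X := T - algebraMap ℂ (X →L[ℂ] X) a with hA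
      have hAM : M.map A.toLinearMap ≤ M := by
        rintro _ ⟨x, hx, rfl⟩
        change T x - algebraMap ℂ (X →L[ℂ] X) a x ∈ M
        rw [alg_apply]
        exact M.sub_mem (hT x hx) (M.smul_mem _ hx)
      have h1 : ¬ (M.map A.toLinearMap).FG := fun h2 =>
        hM (Submodule.fg_of_fg_map_of_fg_inf_ker A.toLinearMap h2 hfg)
      obtain ⟨μ, hμ⟩ := ih (M.map A.toLinearMap) (by
        rintro _ ⟨x, hx, rfl⟩
        refine ⟨T x, hT x hx, ?_⟩
        change T (T x) - algebraMap ℂ (X →L[ℂ] X) a (T x)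
          = T (T x - algebraMap ℂ (X →L[ℂ] X) a x)
        rw [alg_apply, alg_apply, map_sub, map_smul]) h1 (by
        rintro _ ⟨x, hx, rfl⟩
        have h2 := h x hx
        rw [Multiset.map_cons, Multiset.prod_cons, mul_comm, map_mul, map_sub,
          Polynomial.aeval_X, Polynomial.aeval_C, mul_apply_eq_comp] at h2
        exact h2)
      refine ⟨μ, fun h2 => hμ ?_⟩
      have : FiniteDimensional ℂ
          (M ⊓ LinearMap.ker (T - algebraMap ℂ (X →L[ℂ] X) μ).toLinearMap : Submodule ℂ X) :=
        Module.Finite.iff_fg.mpr h2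
      have h3 := Submodule.finiteDimensional_of_le (inf_le_inf_right
        (LinearMap.ker (T - algebraMap ℂ (X →L[ℂ] X) μ).toLinearMap) hAM)
      exact Module.Finite.iff_fg.mp h3
    · exact ⟨a, hfg⟩

/-- Every perturbation of rank at most one of an algebraic operator has an invariant half-space. -/
lemma half_of_alg (hinf : ¬ FiniteDimensional ℂ X) {T : X →L[ℂ] X} {q : Polynomial ℂ} (hq : q ≠ 0)
    (hT : aeval T q = 0) (p : X × (X →L[ℂ] ℂ)) :
    ∃ V : Submodule ℂ X, HalfSpace V ∧ Inv (T + rk p) V := by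
  set q' : Polynomial ℂ := q * Polynomial.C (q.leadingCoeff⁻¹) with hq'
  have hmon : q'.Monic := Polynomial.monic_mul_leadingCoeff_inv hq
  have hT' : aeval T q' = 0 := by rw [hq', map_mul, hT, zero_mul]
  set n := q'.natDegree with hn
  have hTn : ∀ x, (T ^ n) x + ∑ i ∈ Finset.range n, q'.coeff i • (T ^ i) x = 0 := by
    intro x
    have h1 := hT'
    rw [hmon.as_sum, map_add, map_pow, Polynomial.aeval_X, map_sum] at h1
    have h2 := congrArg (fun A : X →L[ℂ] X => A x) h1
    simp only [add_apply, sum_apply, zero_apply, map_mul, map_pow, Polynomial.aeval_X,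
      Polynomial.aeval_C, mul_apply_eq_comp, alg_apply] at h2
    exact h2
  set Φ : X →ₗ[ℂ] (Fin (n + 1) → ℂ) :=
    LinearMap.pi fun k => (p.2.comp (T ^ (k : ℕ))).toLinearMap with hΦ
  set M : Submodule ℂ X := LinearMap.ker Φ with hM
  have hmem : ∀ x, x ∈ M ↔ ∀ k ≤ n, p.2 ((T ^ k) x) = 0 := by
    intro x
    rw [hM, LinearMap.mem_ker]
    constructor
    · intro h k hk
      exact congrFun h ⟨k, by omega⟩
    · intro h
      funext k
      exact h k (by have := k.2; omega)
  have hTM : ∀ x ∈ M, T x ∈ M := by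
    intro x hx
    rw [hmem] at hx ⊢
    intro k hk
    have h1 : (T ^ k) (T x) = (T ^ (k + 1)) x := by rw [pow_succ, mul_apply_eq_comp]
    rw [h1]
    rcases Nat.lt_or_eq_of_le hk with h | h
    · exact hx _ (by omega)
    · have h2 := hTn (T x)
      have h3 : p.2 ((T ^ n) (T x)) = 0 := by
        have h4 := congrArg p.2 h2
        rw [map_add, map_sum, map_zero] at h4
        have h5 : ∑ i ∈ Finset.range n, p.2 (q'.coeff i • (T ^ i) (T x)) = 0 := by
          refine Finset.sum_eq_zero fun i hi => ?_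
          have h6 : (T ^ i) (T x) = (T ^ (i + 1)) x := by rw [pow_succ, mul_apply_eq_comp]
          rw [map_smul, h6, hx (i + 1) (by have := Finset.mem_range.mp hi; omega), smul_zero]
        rw [h5, add_zero] at h4
        exact h4
      rw [← h, h1] at h3
      exact h3
  have hMfg : ¬ M.FG := by
    intro h
    apply hinf
    have h1 : (⊤ : Submodule ℂ X).FG :=
      Submodule.fg_of_fg_map_of_fg_inf_ker Φ (Module.Finite.iff_fg.mp inferInstance) (by
        rw [top_inf_eq]; exact h)
    exact Module.finite_def.mpr h1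
  have hsplit := IsAlgClosed.splits q'
  have hroots := hsplit.eq_prod_roots_of_monic hmon
  obtain ⟨μ, hμ⟩ := exists_inf_eig T q'.roots M hTM hMfg (by
    intro x _
    rw [← hroots, hT']
    rfl)
  have hclosed : IsClosed ((M ⊓ LinearMap.ker (T - algebraMap ℂ (X →L[ℂ] X) μ).toLinearMap :
      Submodule ℂ X) : Set X) := by
    refine IsClosed.inter ?_ (T - algebraMap ℂ (X →L[ℂ] X) μ).isClosed_ker
    have : (M : Set X) = ⋂ k : Fin (n + 1), {x | p.2 ((T ^ (k : ℕ)) x) = 0} := by
      ext x
      simp only [SetLike.mem_coe, hmem, mem_iInter, mem_ofPred_eq]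
      constructor
      · intro h k; exact h k (by have := k.2; omega)
      · intro h k hk; exact h ⟨k, by omega⟩
    rw [this]
    exact isClosed_iInter fun k => isClosed_eq (p.2.comp (T ^ (k : ℕ))).continuous continuous_const
  obtain ⟨V, hVE, hV⟩ := exists_half hclosed hμ
  refine ⟨V, hV, fun x hx => ?_⟩
  have h1 := hVE hx
  have h2 : p.2 x = 0 := by
    have := (hmem x).mp h1.1 0 (Nat.zero_le _)
    simpa using this
  have h3 : T x = μ • x := by
    have h4 : T x - algebraMap ℂ (X →L[ℂ] X) μ x = 0 := h1.2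
    rw [alg_apply, sub_eq_zero] at h4
    exact h4
  rw [add_apply, rk_apply, h2, h3, zero_smul, add_zero]
  exact V.smul_mem _ hx

end Pool.Agent.H731_RK
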