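import Mathlib

open Topology Metric Set Filter

namespace Pool.Agent.H731_RK

/-- A maximum principle on the complement of a closed set at which the function tends to zero. -/
lemma maxp {S : Set ℂ} (hS : IsClosed S) {c : ℂ} {r B : ℝ} {K : ℂ → ℂ}
    (hd : ∀ z ∈ closedBall c r, z ∉ S → DifferentiableAt ℂ K z)
    (h0 : ∀ μ ∈ S, μ ∈ closedBall c r → Tendsto K (𝓝[Sᶜ ∩ closedBall c r] μ) (𝓝 0))
    (hB : ∀ z ∈ sphere c r, z ∉ S → ‖K z‖ ≤ B) (hB0 : 0 ≤ B) :
    ∀ z ∈ ball c r, z ∉ S → ‖K z‖ ≤ B := by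
  intro z hz hzS
  classical
  set U : Set ℂ := ball c r ∩ Sᶜ with hU
  have hUo : IsOpen U := isOpen_ball.inter hS.isOpen_compl
  have hUb : Bornology.IsBounded U := isBounded_ball.subset inter_subset_left
  set f : ℂ → ℂ := Sᶜ.indicator K with hf
  have hfS : ∀ w, w ∈ S → f w = 0 := fun w hw => by simp [hf, hw]
  have hfn : ∀ w, w ∉ S → f w = K w := fun w hw => by simp [hf, hw]
  have hfe : ∀ w, w ∉ S → f =ᶠ[𝓝 w] K := fun w hw => by
    filter_upwards [hS.isOpen_compl.mem_nhds hw] with y hy using hfn y hy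
  have hcl : closure U ⊆ closedBall c r :=
    closure_minimal (inter_subset_left.trans ball_subset_closedBall) isClosed_closedBall
  have hcont : ContinuousOn f (closedBall c r) := by
    intro w hw
    by_cases hwS : w ∈ S
    · rw [ContinuousWithinAt, hfS w hwS]
      have h1 := h0 w hwS hw
      rw [Metric.tendsto_nhdsWithin_nhds] at h1 ⊢
      intro e he
      obtain ⟨δ, hδ, h2⟩ := h1 e he
      refine ⟨δ, hδ, fun {y} hy hyw => ?_⟩
      by_cases hyS : y ∈ S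
      · rw [hfS y hyS]; simpa using he
      · rw [hfn y hyS]; exact h2 ⟨hyS, hy⟩ hyw
    · exact (((hd w hw hwS).continuousAt).congr (hfe w hwS).symm).continuousWithinAt
  have hdc : DiffContOnCl ℂ f U := by
    refine ⟨fun w hw => ?_, hcont.mono hcl⟩
    exact (((hd w (ball_subset_closedBall hw.1) hw.2).congr_of_eventuallyEq
      (hfe w hw.2))).differentiableWithinAt
  have hfr : ∀ w ∈ frontier U, ‖f w‖ ≤ B := by
    intro w hw
    have h1 : w ∈ closedBall c r := hcl hw.1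
    by_cases hwS : w ∈ S
    · rw [hfS w hwS]; simpa using hB0
    · rw [hfn w hwS]
      refine hB w ?_ hwS
      have h2 : w ∉ U := by
        have := hw.2
        rwa [hUo.interior_eq] at this
      have h3 : w ∉ ball c r := fun h => h2 ⟨h, hwS⟩
      rw [mem_closedBall] at h1
      rw [mem_ball, not_lt] at h3
      exact le_antisymm h1 h3
  have := Complex.norm_le_of_forall_mem_frontier_norm_le hUb hdc hfr
    (subset_closure (⟨hz, hzS⟩ : z ∈ U))
  rwa [hfn z hzS] at this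

/-- The global contradiction: no nowhere vanishing function analytic off a compact set `S ≠ ∅`, bounded
at infinity, which vanishes at a Lipschitz rate at the points of `S`. -/
lemma global {S : Set ℂ} (hS : IsClosed S) {μ₀ : ℂ} (hμ₀ : μ₀ ∈ S) {G : ℂ → ℂ} {C M ρ₁ : ℝ}
    (hd : ∀ z, z ∉ S → DifferentiableAt ℂ G z)
    (hC : ∀ z, z ∉ S → ∀ μ ∈ S, ‖G z‖ ≤ C * ‖z - μ‖)
    (hM : ∀ z, z ∉ S → ρ₁ ≤ ‖z‖ → ‖G z‖ ≤ M) :
    ∀ z, z ∉ S → G z = 0 := by
  intro z hz
  by_contra hne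
  have hC0 : 0 ≤ C := by
    have h1 := hC z hz μ₀ hμ₀
    have h2 : 0 < ‖z - μ₀‖ := by
      rw [norm_pos_iff, sub_ne_zero]; rintro rfl; exact hz hμ₀
    by_contra hlt
    push Not at hlt
    have h3 : C * ‖z - μ₀‖ < 0 := mul_neg_of_neg_of_pos hlt h2
    linarith [norm_nonneg (G z)]
  set K : ℂ → ℂ := fun w => G w ^ 2 / (w - μ₀) with hK
  have hKb : ∀ w, w ∉ S → ∀ μ ∈ S, ‖K w‖ ≤ C * (C * ‖w - μ‖) := by
    intro w hw μ hμ
    have h2 : 0 < ‖w - μ₀‖ := by
      rw [norm_pos_iff, sub_ne_zero]; rintro rfl; exact hw hμ₀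
    have h3 : ‖K w‖ = ‖G w‖ * ‖G w‖ / ‖w - μ₀‖ := by
      simp only [hK, norm_div, norm_pow]; rw [sq]
    rw [h3, div_le_iff₀ h2]
    calc ‖G w‖ * ‖G w‖ ≤ (C * ‖w - μ₀‖) * (C * ‖w - μ‖) :=
          mul_le_mul (hC w hw μ₀ hμ₀) (hC w hw μ hμ) (norm_nonneg _) (by positivity)
      _ = C * (C * ‖w - μ‖) * ‖w - μ₀‖ := by ring
  have hKd : ∀ w, w ∉ S → DifferentiableAt ℂ K w := by
    intro w hw
    refine ((hd w hw).pow 2).div ((differentiableAt_id).sub_const _) ?_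
    rw [sub_ne_zero]; rintro rfl; exact hw hμ₀
  have hK0 : ∀ μ ∈ S, ∀ A : Set ℂ, Tendsto K (𝓝[Sᶜ ∩ A] μ) (𝓝 0) := by
    intro μ hμ A
    rw [tendsto_zero_iff_norm_tendsto_zero]
    have h1 : Tendsto (fun w => C * (C * ‖w - μ‖)) (𝓝[Sᶜ ∩ A] μ) (𝓝 0) := by
      have : ContinuousAt (fun w : ℂ => C * (C * ‖w - μ‖)) μ := by fun_prop
      have h2 := this.tendsto
      simp only [sub_self, norm_zero, mul_zero] at h2
      exact h2.mono_left nhdsWithin_le_nhds
    refine squeeze_zero' (Eventually.of_forall fun _ => norm_nonneg _) ?_ h1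
    filter_upwards [self_mem_nhdsWithin] with w hw using hKb w hw.1 μ hμ
  -- the bound on large circles
  have hlim : ∀ ρ : ℝ, ρ₁ ≤ ρ → ‖μ₀‖ < ρ → ‖z‖ < ρ → ‖K z‖ ≤ |M| ^ 2 / (ρ - ‖μ₀‖) := by
    intro ρ h1 h2 h3
    have hpos : 0 < ρ - ‖μ₀‖ := by linarith
    refine maxp hS (c := 0) (r := ρ) (fun w _ hw => hKd w hw) (fun μ hμ _ => hK0 μ hμ _) ?_
      (by positivity) z (by simpa using h3) hz
    intro w hw hwS
    have hwn : ‖w‖ = ρ := by simpa using hw
    have h4 : ‖K w‖ = ‖G w‖ ^ 2 / ‖w - μ₀‖ := by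
      simp only [hK, norm_div, norm_pow]
    rw [h4]
    have h5 : ρ - ‖μ₀‖ ≤ ‖w - μ₀‖ := by
      have := norm_sub_norm_le w μ₀
      rwa [hwn] at this
    have h6 : ‖G w‖ ≤ |M| := (hM w hwS (by rw [hwn]; exact h1)).trans (le_abs_self M)
    gcongr
  have hKz : K z ≠ 0 := by
    simp only [hK]
    refine div_ne_zero (pow_ne_zero _ hne) ?_
    rw [sub_ne_zero]; rintro rfl; exact hz hμ₀
  have ht : Tendsto (fun ρ : ℝ => |M| ^ 2 / (ρ - ‖μ₀‖)) atTop (𝓝 0) :=
    tendsto_const_nhds.div_atTop (tendsto_atTop_add_const_right _ _ tendsto_id)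
  have h5 : ‖K z‖ ≤ 0 := by
    refine ge_of_tendsto ht ?_
    filter_upwards [eventually_ge_atTop ρ₁, eventually_gt_atTop ‖μ₀‖, eventually_gt_atTop ‖z‖]
      with ρ h1 h2 h3 using hlim ρ h1 h2 h3
  exact hKz (norm_le_zero_iff.mp h5)

/-- Near a finite subset `s` of the zero set the function is at most a multiple of the polynomial. -/
lemma prod_bound {D : Set ℂ} {G : ℂ → ℂ} {C : ℝ} (hC0 : 0 ≤ C) (s : Finset ℂ)
    (hC : ∀ z ∈ D, ∀ μ ∈ s, ‖G z‖ ≤ C * ‖z - μ‖) {M : ℝ} (hM : ∀ z ∈ D, ‖G z‖ ≤ M) :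
    ∃ B : ℝ, 0 ≤ B ∧ ∀ z ∈ D, ‖G z‖ ≤ B * ∏ μ ∈ s, ‖z - μ‖ := by
  classical
  induction s using Finset.induction_on with
  | empty => exact ⟨|M|, abs_nonneg _, fun z hz => by simpa using (hM z hz).trans (le_abs_self M)⟩
  | insert a s ha ih =>
    obtain ⟨B, hB0, hB⟩ := ih fun z hz μ hμ => hC z hz μ (Finset.mem_insert_of_mem hμ)
    have hcont : ContinuousAt (fun z : ℂ => ∏ μ ∈ s, ‖z - μ‖) a := by
      refine Continuous.continuousAt ?_
      exact continuous_finsetProd _ fun μ _ => (continuous_id.sub continuous_const).norm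
    have hpos : 0 < ∏ μ ∈ s, ‖a - μ‖ := Finset.prod_pos fun μ hμ => by
      rw [norm_pos_iff, sub_ne_zero]; rintro rfl; exact ha hμ
    set c := (∏ μ ∈ s, ‖a - μ‖) / 2 with hc
    have hcpos : 0 < c := by positivity
    have hev : ∀ᶠ z in 𝓝 a, c < ∏ μ ∈ s, ‖z - μ‖ :=
      hcont.eventually (lt_mem_nhds (by rw [hc]; linarith))
    obtain ⟨δ, hδ, hball⟩ := Metric.eventually_nhds_iff.mp hev
    refine ⟨B / δ + C / c, by positivity, fun z hz => ?_⟩
    rw [Finset.prod_insert ha]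
    have hP : 0 ≤ ∏ μ ∈ s, ‖z - μ‖ := Finset.prod_nonneg fun _ _ => norm_nonneg _
    by_cases hzd : dist z a < δ
    · have h1 := hball hzd
      have h2 := hC z hz a (Finset.mem_insert_self _ _)
      calc ‖G z‖ ≤ C * ‖z - a‖ := h2
        _ = C / c * (‖z - a‖ * c) := by field_simp
        _ ≤ C / c * (‖z - a‖ * ∏ μ ∈ s, ‖z - μ‖) := by gcongr
        _ ≤ (B / δ + C / c) * (‖z - a‖ * ∏ μ ∈ s, ‖z - μ‖) := by
          gcongr; linarith [div_nonneg hB0 hδ.le]
    · push Not at hzd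
      rw [dist_eq_norm] at hzd
      calc ‖G z‖ ≤ B * ∏ μ ∈ s, ‖z - μ‖ := hB z hz
        _ = B / δ * (δ * ∏ μ ∈ s, ‖z - μ‖) := by field_simp
        _ ≤ B / δ * (‖z - a‖ * ∏ μ ∈ s, ‖z - μ‖) := by gcongr
        _ ≤ (B / δ + C / c) * (‖z - a‖ * ∏ μ ∈ s, ‖z - μ‖) := by
          gcongr; linarith [div_nonneg hC0 hcpos.le]


/-- An accumulation point of `S`. -/
lemma local_acc {S : Set ℂ} (hS : IsClosed S) {z₀ : ℂ} (hz₀ : z₀ ∈ S) {G : ℂ → ℂ} {C r : ℝ}
    (hr : 0 < r) (hd : ∀ z ∈ closedBall z₀ r, z ∉ S → DifferentiableAt ℂ G z)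
    (hC : ∀ z ∈ closedBall z₀ r, z ∉ S → ∀ μ ∈ S, ‖G z‖ ≤ C * ‖z - μ‖)
    (hacc : ∃ᶠ w in 𝓝[≠] z₀, w ∈ S) :
    ∀ z ∈ ball z₀ (r / 4), z ∉ S → G z = 0 := by
  classical
  intro z hz hzS
  by_contra hne
  have ha : 0 < ‖G z‖ := norm_pos_iff.mpr hne
  have hzr : z ∈ closedBall z₀ r := by
    rw [mem_ball] at hz; rw [mem_closedBall]; linarith
  have hC0 : 0 ≤ C := by
    have h1 := hC z hzr hzS z₀ hz₀
    have h2 : 0 < ‖z - z₀‖ := by
      rw [norm_pos_iff, sub_ne_zero]; rintro rfl; exact hzS hz₀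
    by_contra hlt
    push Not at hlt
    have h3 : C * ‖z - z₀‖ < 0 := mul_neg_of_neg_of_pos hlt h2
    linarith [norm_nonneg (G z)]
  have hGr : ∀ w ∈ closedBall z₀ r, w ∉ S → ‖G w‖ ≤ C * r := by
    intro w hw hwS
    refine (hC w hw hwS z₀ hz₀).trans ?_
    rw [mem_closedBall, dist_eq_norm] at hw
    gcongr
  have hCr : 0 < C * r := ha.trans_le (hGr z hzr hzS)
  -- infinitely many points of `S` near `z₀`
  have hinf : (S ∩ ball z₀ (r / 4)).Infinite := by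
    intro hfin
    have h1 : IsClosed ((S ∩ ball z₀ (r / 4)) \ {z₀}) := (hfin.subset sdiff_subset).isClosed
    have h2 : ∀ᶠ w in 𝓝 z₀, w ∉ ((S ∩ ball z₀ (r / 4)) \ {z₀}) :=
      h1.isOpen_compl.mem_nhds (by simp)
    have h3 : ∀ᶠ w in 𝓝 z₀, w ∈ ball z₀ (r / 4) := ball_mem_nhds _ (by positivity)
    have h4 : ∀ᶠ w in 𝓝[≠] z₀, w ∉ S := by
      filter_upwards [nhdsWithin_le_nhds h2, nhdsWithin_le_nhds h3, self_mem_nhdsWithin]
        with w h5 h6 h7 h8
      exact h5 ⟨⟨h8, h6⟩, h7⟩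
    exact hacc h4
  have key : ∀ n : ℕ, ‖G z‖ ≤ C * r * (2 / 3) ^ n := by
    intro n
    obtain ⟨s, hs, hcard⟩ := hinf.exists_subset_card_eq n
    set D : Set ℂ := closedBall z₀ r ∩ Sᶜ with hD
    obtain ⟨B, hB0, hB⟩ := prod_bound (D := D) (G := G) hC0 s
      (fun w hw μ hμ => hC w hw.1 hw.2 μ (hs hμ).1) (M := C * r) (fun w hw => hGr w hw.1 hw.2)
    set p : ℂ → ℂ := fun w => ∏ μ ∈ s, (w - μ) with hp
    have hpn : ∀ w, ‖p w‖ = ∏ μ ∈ s, ‖w - μ‖ := fun w => by simp [hp, norm_prod]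
    have hp0 : ∀ w, w ∉ S → p w ≠ 0 := by
      intro w hw
      refine Finset.prod_ne_zero_iff.mpr fun μ hμ => ?_
      rw [sub_ne_zero]; rintro rfl; exact hw (hs hμ).1
    have hpd : Differentiable ℂ p := by
      intro w
      simp only [hp]
      fun_prop
    have hP : ∀ w ∈ sphere z₀ r, (3 * r / 4) ^ n ≤ ‖p w‖ := by
      intro w hw
      rw [hpn, ← hcard, ← Finset.prod_const]
      refine Finset.prod_le_prod (fun _ _ => by positivity) fun μ hμ => ?_
      have h1 := (hs hμ).2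
      rw [mem_ball, dist_eq_norm] at h1
      rw [mem_sphere, dist_eq_norm] at hw
      have h2 : ‖w - z₀‖ ≤ ‖w - μ‖ + ‖μ - z₀‖ := by
        have := norm_add_le (w - μ) (μ - z₀); simpa using this
      linarith
    have hP2 : ‖p z‖ ≤ (r / 2) ^ n := by
      rw [hpn, ← hcard, ← Finset.prod_const]
      refine Finset.prod_le_prod (fun _ _ => norm_nonneg _) fun μ hμ => ?_
      have h1 := (hs hμ).2
      rw [mem_ball, dist_comm, dist_eq_norm] at h1
      rw [mem_ball, dist_eq_norm] at hz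
      have h2 : ‖z - μ‖ ≤ ‖z - z₀‖ + ‖z₀ - μ‖ := by
        have := norm_add_le (z - z₀) (z₀ - μ); simpa using this
      linarith
    have hm : ∀ m : ℕ, (‖G z‖ / ‖p z‖) ^ m * ‖G z‖ ≤ (C * r / (3 * r / 4) ^ n) ^ m * (C * r) := by
      intro m
      set K : ℂ → ℂ := fun w => (G w / p w) ^ m * G w with hK
      have hKn : ∀ w, ‖K w‖ = (‖G w‖ / ‖p w‖) ^ m * ‖G w‖ := fun w => by simp [hK]
      have h1 : ‖K z‖ ≤ (C * r / (3 * r / 4) ^ n) ^ m * (C * r) := by
        refine maxp hS (c := z₀) (r := r) ?_ ?_ ?_ (by positivity) z ?_ hzS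
        · intro w hw hwS
          exact (((hd w hw hwS).div (hpd w) (hp0 w hwS)).pow m).mul (hd w hw hwS)
        · intro μ hμ _
          rw [tendsto_zero_iff_norm_tendsto_zero]
          have h1 : Tendsto (fun w => B ^ m * (C * ‖w - μ‖)) (𝓝[Sᶜ ∩ closedBall z₀ r] μ)
              (𝓝 0) := by
            have : ContinuousAt (fun w : ℂ => B ^ m * (C * ‖w - μ‖)) μ := by fun_prop
            have h2 := this.tendsto
            simp only [sub_self, norm_zero, mul_zero] at h2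
            exact h2.mono_left nhdsWithin_le_nhds
          refine squeeze_zero' (Eventually.of_forall fun _ => norm_nonneg _) ?_ h1
          filter_upwards [self_mem_nhdsWithin] with w hw
          rw [hKn]
          have h2 : ‖G w‖ / ‖p w‖ ≤ B := by
            rw [div_le_iff₀ (norm_pos_iff.mpr (hp0 w hw.1)), hpn]
            exact hB w ⟨hw.2, hw.1⟩
          have h3 := hC w hw.2 hw.1 μ hμ
          have h4 : 0 ≤ ‖G w‖ / ‖p w‖ := by positivity
          gcongr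
        · intro w hw hwS
          rw [hKn]
          have h2 := hGr w (sphere_subset_closedBall hw) hwS
          have h3 := hP w hw
          gcongr
        · rw [mem_ball] at hz ⊢; linarith
      rwa [hKn] at h1
    have hpz : 0 < ‖p z‖ := norm_pos_iff.mpr (hp0 z hzS)
    have hPpos : 0 < C * r / (3 * r / 4) ^ n := by positivity
    have hq : ‖G z‖ / ‖p z‖ ≤ C * r / (3 * r / 4) ^ n := by
      by_contra hlt
      push Not at hlt
      have h1 : 1 < (‖G z‖ / ‖p z‖) / (C * r / (3 * r / 4) ^ n) := by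
        rwa [one_lt_div hPpos]
      obtain ⟨m, hm'⟩ := pow_unbounded_of_one_lt (C * r / ‖G z‖) h1
      have h2 := hm m
      rw [div_pow, lt_div_iff₀ (by positivity), div_mul_eq_mul_div, div_lt_iff₀ ha] at hm'
      linarith
    rw [div_le_iff₀ hpz] at hq
    calc ‖G z‖ ≤ C * r / (3 * r / 4) ^ n * ‖p z‖ := hq
      _ ≤ C * r / (3 * r / 4) ^ n * (r / 2) ^ n := by gcongr
      _ = C * r * (2 / 3) ^ n := by
        rw [div_mul_eq_mul_div, mul_div_assoc, ← div_pow]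
        congr 2
        field_simp
        norm_num
  have ht : Tendsto (fun n : ℕ => C * r * (2 / 3 : ℝ) ^ n) atTop (𝓝 (C * r * 0)) :=
    (tendsto_pow_atTop_nhds_zero_of_lt_one (by norm_num) (by norm_num)).const_mul _
  have := ge_of_tendsto ht (Eventually.of_forall key)
  simp only [mul_zero] at this
  linarith

/-- An isolated point of `S`. -/
lemma local_iso {S : Set ℂ} {z₀ : ℂ} (hz₀ : z₀ ∈ S) {G : ℂ → ℂ} {C r : ℝ}
    (hr : 0 < r) (hd : ∀ z ∈ closedBall z₀ r, z ∉ S → DifferentiableAt ℂ G z)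
    (hG : ∀ z ∈ closedBall z₀ r, z ∉ S → G z ≠ 0)
    (hC : ∀ z ∈ closedBall z₀ r, z ∉ S → ∀ μ ∈ S, ‖G z‖ ≤ C * ‖z - μ‖)
    (hiso : ∀ᶠ w in 𝓝[≠] z₀, w ∉ S) :
    ∃ (n : ℕ) (c : ℝ), 0 < c ∧ ∀ᶠ z in 𝓝[≠] z₀, c * ‖z - z₀‖ ^ n ≤ ‖G z‖ := by
  classical
  rw [eventually_nhdsWithin_iff, Metric.eventually_nhds_iff] at hiso
  obtain ⟨δ, hδ, h1⟩ := hiso
  set s : Set ℂ := ball z₀ (min δ r) with hs
  have hsn : s ∈ 𝓝 z₀ := ball_mem_nhds _ (lt_min hδ hr)
  have hsS : ∀ w ∈ s, w ≠ z₀ → w ∉ S := fun w hw hne => h1 (hw.trans_le (min_le_left _ _)) hne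
  have hsr : ∀ w ∈ s, w ∈ closedBall z₀ r := fun w hw =>
    mem_closedBall.mpr ((mem_ball.mp hw).le.trans (min_le_right _ _))
  set f : ℂ → ℂ := Function.update G z₀ 0 with hf
  have hfn : ∀ w, w ≠ z₀ → f w = G w := fun w hw => by simp [hf, hw]
  have hf0 : f z₀ = 0 := by simp [hf]
  have hfd : DifferentiableOn ℂ f s := by
    rw [← Complex.differentiableOn_compl_singleton_and_continuousAt_iff hsn]
    constructor
    · intro w hw
      have h2 : f =ᶠ[𝓝 w] G := by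
        filter_upwards [isOpen_ne.mem_nhds hw.2] with y hy using hfn y hy
      exact ((hd w (hsr w hw.1) (hsS w hw.1 hw.2)).congr_of_eventuallyEq
        h2).differentiableWithinAt
    · rw [ContinuousAt, hf0, tendsto_zero_iff_norm_tendsto_zero]
      have h1 : Tendsto (fun w => |C| * ‖w - z₀‖) (𝓝 z₀) (𝓝 0) := by
        have : ContinuousAt (fun w : ℂ => |C| * ‖w - z₀‖) z₀ := by fun_prop
        have h2 := this.tendsto
        simpa only [sub_self, norm_zero, mul_zero] using h2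
      refine squeeze_zero' (Eventually.of_forall fun _ => norm_nonneg _) ?_ h1
      filter_upwards [hsn] with w hw
      by_cases hne : w = z₀
      · rw [hne, hf0]; simp
      · rw [hfn w hne]
        refine (hC w (hsr w hw) (hsS w hw hne) z₀ hz₀).trans ?_
        gcongr
        exact le_abs_self C
  have han : AnalyticAt ℂ f z₀ := hfd.analyticAt hsn
  have hnz : ¬ ∀ᶠ z in 𝓝 z₀, f z = 0 := by
    intro h
    have h2 : ∀ᶠ z in 𝓝[≠] z₀, f z ≠ 0 := by
      filter_upwards [nhdsWithin_le_nhds hsn, self_mem_nhdsWithin] with w hw hne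
      rw [hfn w hne]
      exact hG w (hsr w hw) (hsS w hw hne)
    have h3 := (h2.and (nhdsWithin_le_nhds h)).exists
    obtain ⟨w, h4, h5⟩ := h3
    exact h4 h5
  obtain ⟨n, g, hg, hg0, hfg⟩ := han.exists_eventuallyEq_pow_smul_nonzero_iff.mpr hnz
  refine ⟨n, ‖g z₀‖ / 2, by have := norm_pos_iff.mpr hg0; positivity, ?_⟩
  have h4 : ∀ᶠ z in 𝓝 z₀, ‖g z₀‖ / 2 < ‖g z‖ :=
    hg.continuousAt.norm.eventually
      (lt_mem_nhds (by have := norm_pos_iff.mpr hg0; linarith))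
  filter_upwards [nhdsWithin_le_nhds hfg, nhdsWithin_le_nhds h4, self_mem_nhdsWithin]
    with w h5 h6 h7
  rw [← hfn w h7, h5, norm_smul, norm_pow, mul_comm]
  gcongr

end Pool.Agent.H731_RK
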