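import Pool.Agent.H731_RK.Res

open Topology Metric Set Filter

namespace Pool.Agent.H731_RK

variable {X : Type*} [NormedAddCommGroup X] [NormedSpace ℂ X]

/-- A half-space: a closed subspace of infinite dimension and infinite codimension. -/
def HalfSpace (V : Submodule ℂ X) : Prop :=
  IsClosed (V : Set X) ∧ ¬ FiniteDimensional ℂ V ∧ ¬ FiniteDimensional ℂ (X ⧸ V)

/-- `V` is invariant under `S`. -/
def Inv (S : X →L[ℂ] X) (V : Submodule ℂ X) : Prop := ∀ x ∈ V, S x ∈ V

/-- `V` is invariant under all operators which commute with `S`. -/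
def Hyper (S : X →L[ℂ] X) (V : Submodule ℂ X) : Prop :=
  ∀ A : X →L[ℂ] X, A * S = S * A → ∀ x ∈ V, A x ∈ V

lemma Hyper.inv {S : X →L[ℂ] X} {V : Submodule ℂ X} (h : Hyper S V) : Inv S V :=
  h S rfl

lemma half_of_families (x : ℕ → X) (y : ℕ → X →L[ℂ] ℂ) (hx : LinearIndependent ℂ x)
    (hy : LinearIndependent ℂ y) (h : ∀ j k, y j (x k) = 0) :
    HalfSpace (Submodule.span ℂ (range x)).topologicalClosure := by
  set V := (Submodule.span ℂ (range x)).topologicalClosure with hV
  have hxV : ∀ k, x k ∈ V := fun k =>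
    (Submodule.le_topologicalClosure _) (Submodule.subset_span (mem_range_self k))
  refine ⟨Submodule.isClosed_topologicalClosure _, fun hfin => ?_, fun hfin => ?_⟩
  · have h1 : LinearIndependent ℂ (fun k => (⟨x k, hxV k⟩ : V)) :=
      LinearIndependent.of_comp V.subtype hx
    exact not_finite_iff_infinite.mpr inferInstance (LinearIndependent.finite_of_isNoetherian h1)
  · have hyV : ∀ j, V ≤ LinearMap.ker (y j).toLinearMap := by
      intro j
      refine Submodule.topologicalClosure_minimal _ ?_ ?_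
      · rw [Submodule.span_le]
        rintro _ ⟨k, rfl⟩
        exact h j k
      · exact (y j).isClosed_ker
    set φ : ℕ → Module.Dual ℂ (X ⧸ V) := fun j => V.liftQ (y j).toLinearMap (hyV j) with hφ
    have hφi : LinearIndependent ℂ φ := by
      have h2 : LinearIndependent ℂ (fun j => (y j).toLinearMap) := by
        have := hy.map' (ContinuousLinearMap.coeLM ℂ : (X →L[ℂ] ℂ) →ₗ[ℂ] (X →ₗ[ℂ] ℂ))
          (LinearMap.ker_eq_bot.mpr ContinuousLinearMap.coe_injective)
        exact this
      refine LinearIndependent.of_comp (V.mkQ.dualMap) ?_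
      have h3 : (V.mkQ.dualMap ∘ φ) = fun j => (y j).toLinearMap := by
        funext j
        ext z
        rfl
      rw [h3]
      exact h2
    exact not_finite_iff_infinite.mpr inferInstance (LinearIndependent.finite_of_isNoetherian hφi)

/-- Half-spaces spanned by eigenvectors. -/
lemma half_of_eig {S : X →L[ℂ] X} {l : ℕ → ℂ} (hl : Function.Injective l) {x : ℕ → X}
    {y : ℕ → X →L[ℂ] ℂ} (hx : ∀ k, x k ≠ 0) (hy : ∀ k, y k ≠ 0) (hSx : ∀ k, S (x k) = l k • x k)
    (hSy : ∀ k z, y k (S z) = l k * y k z) (hline : ∀ k z, S z = l k • z → ∃ c : ℂ, z = c • x k) :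
    ∃ V : Submodule ℂ X, HalfSpace V ∧ Hyper S V := by
  have hxi : LinearIndependent ℂ x :=
    Module.End.eigenvectors_linearIndependent' S.toLinearMap l hl x fun k =>
      Module.End.hasEigenvector_iff.mpr ⟨Module.End.mem_eigenspace_iff.mpr (hSx k), hx k⟩
  have hyi : LinearIndependent ℂ y := by
    set D : Module.End ℂ (X →L[ℂ] ℂ) :=
      { toFun := fun f => f.comp S
        map_add' := fun f g => by ext; simp
        map_smul' := fun c f => by ext; simp } with hD
    exact Module.End.eigenvectors_linearIndependent' D l hl y fun k =>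
      Module.End.hasEigenvector_iff.mpr ⟨Module.End.mem_eigenspace_iff.mpr (by
        ext z; simp [hD, hSy k z]), hy k⟩
  have hperp : ∀ j k, j ≠ k → y j (x k) = 0 := by
    intro j k hjk
    have h1 := hSy j (x k)
    rw [hSx k, map_smul, smul_eq_mul] at h1
    have h2 : (l k - l j) * y j (x k) = 0 := by linear_combination h1
    exact (mul_eq_zero.mp h2).resolve_left (sub_ne_zero.mpr fun h => hjk (hl h).symm)
  refine ⟨_, half_of_families (fun k => x (2 * k)) (fun j => y (2 * j + 1))
    (hxi.comp _ fun a b h => by simpa using h) (hyi.comp _ fun a b h => by simpa using h)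
    (fun j k => hperp _ _ (by omega)), ?_⟩
  intro A hA
  have hclosed : IsClosed (((Submodule.span ℂ (range fun k => x (2 * k))).topologicalClosure.comap
      A.toLinearMap : Submodule ℂ X) : Set X) :=
    (Submodule.isClosed_topologicalClosure _).preimage A.continuous
  refine Submodule.topologicalClosure_minimal _ ?_ hclosed
  rw [Submodule.span_le]
  rintro _ ⟨k, rfl⟩
  have h1 : S (A (x (2 * k))) = l (2 * k) • A (x (2 * k)) := by
    have h2 := congrArg (fun B : X →L[ℂ] X => B (x (2 * k))) hA
    simp only [mul_apply_eq_comp] at h2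
    rw [← h2, hSx, map_smul]
  obtain ⟨c, hc⟩ := hline _ _ h1
  change A (x (2 * k)) ∈ (Submodule.span ℂ (range fun k => x (2 * k))).topologicalClosure
  rw [hc]
  exact Submodule.smul_mem _ _ ((Submodule.le_topologicalClosure _)
    (Submodule.subset_span ⟨k, rfl⟩))

/-- A functional separating a point from a finite-dimensional subspace. -/
lemma sep {W : Submodule ℂ X} (hW : IsClosed (W : Set X)) {x : X} (hx : x ∉ W) :
    ∃ f : X →L[ℂ] ℂ, f x = 1 ∧ ∀ w ∈ W, f w = 0 := by
  have : IsClosed (W : Set X) := hW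
  have h1 : W.mkQ x ≠ 0 := by
    intro h
    exact hx ((Submodule.Quotient.mk_eq_zero W).mp h)
  have h2 : ‖(W.mkQ x : X ⧸ W)‖ ≠ 0 := norm_ne_zero_iff.mpr h1
  obtain ⟨g, _, hg⟩ := exists_dual_vector ℂ (W.mkQ x : X ⧸ W) h2
  have h3 : g (W.mkQ x) ≠ 0 := by
    rw [hg]
    exact Complex.ofReal_ne_zero.mpr h2
  refine ⟨(g (W.mkQ x))⁻¹ • g.comp W.mkQL, ?_, fun w hw => ?_⟩
  · change (g (W.mkQ x))⁻¹ * g (W.mkQ x) = 1
    exact inv_mul_cancel₀ h3
  · change (g (W.mkQ x))⁻¹ * g (W.mkQ w) = 0
    have : W.mkQ w = 0 := (Submodule.Quotient.mk_eq_zero W).mpr hw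
    rw [this, map_zero, mul_zero]

/-- An infinite-dimensional subspace contains an infinite-dimensional closed subspace (the closure is
taken in the whole space) of infinite codimension. -/
lemma exists_half {E : Submodule ℂ X} (hE : IsClosed (E : Set X)) (hinf : ¬ E.FG) :
    ∃ V : Submodule ℂ X, V ≤ E ∧ HalfSpace V := by
  classical
  obtain ⟨q, hq1, hq2⟩ := exists_seq_of_forall_finset_exists
    (P := fun p : X × (X →L[ℂ] ℂ) => p.1 ∈ E ∧ p.2 p.1 = 1)
    (r := fun p q => p.2 q.1 = 0 ∧ q.2 p.1 = 0) (by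
      intro s _
      set W : Submodule ℂ X := Submodule.span ℂ ((s.image Prod.fst : Finset X) : Set X) with hW
      have hWfg : W.FG := ⟨s.image Prod.fst, rfl⟩
      have : FiniteDimensional ℂ W := Module.Finite.iff_fg.mpr hWfg
      set Φ : X →ₗ[ℂ] (s → ℂ) := LinearMap.pi fun p => (p.1.2).toLinearMap with hΦ
      have h1 : ¬ (E ⊓ LinearMap.ker Φ) ≤ W := by
        intro hle
        have h2 : (E ⊓ LinearMap.ker Φ).FG := by
          have := Submodule.finiteDimensional_of_le hle
          exact Module.Finite.iff_fg.mp this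
        refine hinf (Submodule.fg_of_fg_map_of_fg_inf_ker Φ ?_ h2)
        exact Module.Finite.iff_fg.mp inferInstance
      obtain ⟨x, hx, hxW⟩ := SetLike.not_le_iff_exists.mp h1
      obtain ⟨f, hf1, hf2⟩ := sep (Submodule.closed_of_finiteDimensional W) hxW
      refine ⟨(x, f), ⟨hx.1, hf1⟩, fun p hp => ⟨?_, ?_⟩⟩
      · have h3 := LinearMap.mem_ker.mp hx.2
        exact congrFun h3 ⟨p, hp⟩
      · exact hf2 _ (Submodule.subset_span (by
          rw [Finset.mem_coe, Finset.mem_image]; exact ⟨p, hp, rfl⟩)))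
  have hbi : ∀ j k, j ≠ k → (q j).2 (q k).1 = 0 := by
    intro j k hjk
    rcases lt_or_gt_of_ne hjk with h | h
    · exact (hq2 j k h).1
    · exact (hq2 k j h).2
  have hxi : LinearIndependent ℂ fun k => (q k).1 :=
    LinearIndependent.of_pairwise_dual_eq_zero_one _ (fun k => (q k).2.toLinearMap)
      (fun j k hjk => hbi j k hjk) (fun k => (hq1 k).2)
  have hyi : LinearIndependent ℂ fun k => (q k).2 :=
    LinearIndependent.of_pairwise_dual_eq_zero_one _
      (fun k => (ContinuousLinearMap.apply ℂ ℂ (q k).1).toLinearMap)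
      (fun j k hjk => hbi k j (Ne.symm hjk)) (fun k => (hq1 k).2)
  refine ⟨_, ?_, half_of_families (fun k => (q (2 * k)).1) (fun j => (q (2 * j + 1)).2)
    (hxi.comp (fun k => 2 * k) fun a b h => by simpa using h)
    (hyi.comp (fun k => 2 * k + 1) fun a b h => by simpa using h)
    (fun j k => hbi _ _ (by omega))⟩
  refine Submodule.topologicalClosure_minimal _ ?_ hE
  rw [Submodule.span_le]
  rintro _ ⟨k, rfl⟩
  exact (hq1 _).1

end Pool.Agent.H731_RK
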