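import Pool.Agent.H731_RK.Pol

open Topology Metric Set Filter
open Polynomial (aeval)

namespace Pool.Agent.H731_RK

variable {X : Type*} [NormedAddCommGroup X] [NormedSpace ℂ X] [CompleteSpace X]

lemma rk_smul (κ : ℂ) (p : X × (X →L[ℂ] ℂ)) : rk (κ • p.1, p.2) = κ • rk p := by
  ext x
  simp [smul_smul, mul_comm]

/-- Infinitely many zeros of `fn T p - 1` give a hyperinvariant half-space. -/
lemma half_of_infinite {T : X →L[ℂ] X} {p : X × (X →L[ℂ] ℂ)}
    (hinf : {z | z ∈ resolventSet ℂ T ∧ fn T p z = 1}.Infinite) :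
    ∃ V : Submodule ℂ X, HalfSpace V ∧ Hyper (T + rk p) V := by
  set l : ℕ → ℂ := fun k => (hinf.natEmbedding _ k : ℂ) with hl
  have hlm : ∀ k, l k ∈ resolventSet ℂ T ∧ fn T p (l k) = 1 := fun k =>
    (hinf.natEmbedding _ k).2
  have hinj : Function.Injective l := Subtype.val_injective.comp (hinf.natEmbedding _).injective
  refine half_of_eig (S := T + rk p) hinj (x := fun k => resolvent T (l k) p.1)
    (y := fun k => p.2.comp (resolvent T (l k))) (fun k => eig_vec_ne (hlm k).2) (fun k h => ?_)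
    (fun k => eig_vec (hlm k).1 (hlm k).2) (fun k z => eig_fun (hlm k).1 (hlm k).2 z)
    (fun k z hz => ⟨p.2 z, eig_line (hlm k).1 hz⟩)
  have h1 := congrArg (fun f : X →L[ℂ] ℂ => f p.1) h
  have h2 : fn T p (l k) = 0 := h1
  rw [(hlm k).2] at h2
  exact one_ne_zero h2

lemma infinite_of_acc {T : X →L[ℂ] X} {p : X × (X →L[ℂ] ℂ)} {z₀ : ℂ} (hz₀ : z₀ ∈ spectrum ℂ T)
    (h : ∀ ε > 0, ∃ z ∈ ball z₀ ε, z ∈ resolventSet ℂ T ∧ fn T p z = 1) :
    {z | z ∈ resolventSet ℂ T ∧ fn T p z = 1}.Infinite := by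
  intro hfin
  have h1 : z₀ ∈ closure {z | z ∈ resolventSet ℂ T ∧ fn T p z = 1} := by
    rw [Metric.mem_closure_iff]
    intro ε hε
    obtain ⟨z, hz, hz2⟩ := h ε hε
    exact ⟨z, hz2, by rw [dist_comm]; exact hz⟩
  rw [hfin.isClosed.closure_eq] at h1
  exact hz₀ h1.1

/-- The limits of the points at which `fn T p = 1`. -/
def Acc (T : X →L[ℂ] X) (p : X × (X →L[ℂ] ℂ)) : Prop :=
  ∀ z₀ ∈ frontier (spectrum ℂ T), ¬ AtMostPole T z₀ → ∀ ε > 0, ∃ z ∈ ball z₀ ε,
    z ∈ resolventSet ℂ T ∧ fn T p z = 1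

lemma good_scale (T : X →L[ℂ] X) {N : Set ℂ} (hd : Dense {p : X × (X →L[ℂ] ℂ) | Good T p N})
    {c : ℂ} (hc : c ≠ 0) :
    IsOpen {p : X × (X →L[ℂ] ℂ) | Good T (c • p.1, p.2) N} ∧
      Dense {p : X × (X →L[ℂ] ℂ) | Good T (c • p.1, p.2) N} := by
  constructor
  · have : Continuous fun p : X × (X →L[ℂ] ℂ) => (c • p.1, p.2) := by fun_prop
    exact (good_open T N).preimage this
  · set e : (X × (X →L[ℂ] ℂ)) ≃ₜ (X × (X →L[ℂ] ℂ)) :=
      (Homeomorph.smulOfNeZero c hc).prodCongr (Homeomorph.refl _) with he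
    exact hd.preimage e.isOpenMap

/-- The generic statement. -/
lemma generic (T : X →L[ℂ] X) :
    ∃ G : Set (X × (X →L[ℂ] ℂ)), IsGδ G ∧ Dense G ∧ ∀ p ∈ G,
      ∃ R : Set ℂ, IsGδ R ∧ Dense R ∧ 1 ∈ R ∧ ∀ κ ∈ R, Acc T (κ • p.1, p.2) := by
  classical
  set B : Set ℂ := {z | z ∈ frontier (spectrum ℂ T) ∧ ¬ AtMostPole T z} with hB
  obtain ⟨D, hDB, hDc, hDd⟩ :=
    (TopologicalSpace.IsSeparable.of_separableSpace B).exists_countable_dense_subset
  obtain ⟨Q₀, hQc, hQd⟩ := TopologicalSpace.exists_countable_dense ℂ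
  set Q : Set ℂ := insert 1 (Q₀ \ {0}) with hQ
  have hQcount : Q.Countable := (hQc.mono sdiff_subset).insert 1
  have hQdense : Dense Q := by
    have h1 : Dense (Q₀ \ {0}) := hQd.sdiff_singleton 0
    exact h1.mono (subset_insert _ _)
  have hQ0 : ∀ c ∈ Q, c ≠ 0 := by
    rintro c (rfl | hc)
    · exact one_ne_zero
    · exact hc.2
  set I : Set (ℂ × ℕ) := D ×ˢ univ with hI
  have hIc : I.Countable := hDc.prod countable_univ
  set N : ℂ × ℕ → Set ℂ := fun i => ball i.1 (1 / ((i.2 : ℝ) + 1)) with hN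
  have hNpos : ∀ k : ℕ, (0 : ℝ) < 1 / ((k : ℝ) + 1) := fun k => by positivity
  have hdense : ∀ i ∈ I, Dense {p : X × (X →L[ℂ] ℂ) | Good T p (N i)} := by
    intro i hi
    have h1 := hDB hi.1
    exact dense_local T h1.1 h1.2 isOpen_ball (mem_ball_self (hNpos i.2))
  set G : Set (X × (X →L[ℂ] ℂ)) :=
    ⋂ j ∈ I ×ˢ Q, {p : X × (X →L[ℂ] ℂ) | Good T (j.2 • p.1, p.2) (N j.1)} with hG
  have hIQ : (I ×ˢ Q).Countable := hIc.prod hQcount
  refine ⟨G, ?_, ?_, ?_⟩
  · exact IsGδ.biInter hIQ fun j hj =>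
      ((good_scale T (hdense j.1 hj.1) (hQ0 j.2 hj.2)).1).isGδ
  · exact dense_biInter_of_isOpen
      (fun j hj => (good_scale T (hdense j.1 hj.1) (hQ0 j.2 hj.2)).1) hIQ
      (fun j hj => (good_scale T (hdense j.1 hj.1) (hQ0 j.2 hj.2)).2)
  · intro p hp
    have hp' : ∀ i ∈ I, ∀ c ∈ Q, Good T (c • p.1, p.2) (N i) := fun i hi c hc =>
      mem_iInter₂.mp hp (i, c) ⟨hi, hc⟩
    set R : Set ℂ := ⋂ i ∈ I, {κ : ℂ | Good T (κ • p.1, p.2) (N i)} with hR
    have hopen : ∀ i ∈ I, IsOpen {κ : ℂ | Good T (κ • p.1, p.2) (N i)} := by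
      intro i _
      have : Continuous fun κ : ℂ => ((κ • p.1, p.2) : X × (X →L[ℂ] ℂ)) := by fun_prop
      exact (good_open T (N i)).preimage this
    have hQR : Q ⊆ R := fun c hc => mem_iInter₂.mpr fun i hi => hp' i hi c hc
    refine ⟨R, IsGδ.biInter hIc fun i hi => (hopen i hi).isGδ, hQdense.mono hQR,
      hQR (mem_insert _ _), fun κ hκ z₀ hz₀ hpole ε hε => ?_⟩
    -- a point of `D` near `z₀`
    have h1 : z₀ ∈ closure D := hDd ⟨hz₀, hpole⟩
    rw [Metric.mem_closure_iff] at h1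
    obtain ⟨d, hdD, hd⟩ := h1 (ε / 2) (by positivity)
    obtain ⟨k, hk⟩ := exists_nat_one_div_lt (show (0 : ℝ) < ε / 2 by positivity)
    have h2 : Good T (κ • p.1, p.2) (N (d, k)) := mem_iInter₂.mp hκ (d, k) ⟨hdD, mem_univ _⟩
    obtain ⟨z, hzN, hz, hz1⟩ := good_zero h2
    refine ⟨z, ?_, hz, hz1⟩
    rw [mem_ball]
    have h3 : dist z d < 1 / ((k : ℝ) + 1) := hzN
    have h4 : dist z z₀ ≤ dist z d + dist d z₀ := dist_triangle _ _ _
    rw [dist_comm z₀ d] at hd
    linarith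

/-- What follows from `Acc`. -/
lemma conseq (hX : ¬ FiniteDimensional ℂ X) {T : X →L[ℂ] X} {p : X × (X →L[ℂ] ℂ)}
    (h : Acc T p) :
    (∃ V : Submodule ℂ X, HalfSpace V ∧ Inv (T + rk p) V) ∧
    ((¬ ∃ q : Polynomial ℂ, q ≠ 0 ∧ aeval T q = 0) →
      ∃ V : Submodule ℂ X, HalfSpace V ∧ Hyper (T + rk p) V) := by
  have h2 : (¬ ∃ q : Polynomial ℂ, q ≠ 0 ∧ aeval T q = 0) →
      ∃ V : Submodule ℂ X, HalfSpace V ∧ Hyper (T + rk p) V := by
    intro hna
    have h1 : ∃ z ∈ frontier (spectrum ℂ T), ¬ AtMostPole T z := by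
      by_contra hno
      push Not at hno
      exact hna (alg_of_poles T hno)
    obtain ⟨z₀, hz₀, hpole⟩ := h1
    exact half_of_infinite (infinite_of_acc ((spectrum.isClosed T).frontier_subset hz₀)
      (h z₀ hz₀ hpole))
  refine ⟨?_, h2⟩
  by_cases halg : ∃ q : Polynomial ℂ, q ≠ 0 ∧ aeval T q = 0
  · obtain ⟨q, hq, hT⟩ := halg
    exact half_of_alg hX hq hT p
  · obtain ⟨V, hV, hV2⟩ := h2 halg
    exact ⟨V, hV, hV2.inv⟩

lemma fn_lim (T : X →L[ℂ] X) (p : X × (X →L[ℂ] ℂ)) :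
    Tendsto (fun z => fn T p z) (Bornology.cobounded ℂ) (𝓝 0) := by
  have h1 := spectrum.resolvent_tendsto_cobounded (𝕜 := ℂ) T
  have h2 : Tendsto (fun z => resolvent T z p.1) (Bornology.cobounded ℂ) (𝓝 0) := by
    have h3 := ((ContinuousLinearMap.apply ℂ X p.1).continuous.tendsto 0).comp h1
    rw [map_zero] at h3
    exact h3
  have h4 := (p.2.continuous.tendsto 0).comp h2
  rw [map_zero] at h4
  exact h4

/-- Large coupling constants. -/
lemma large (hX : ¬ FiniteDimensional ℂ X) (T : X →L[ℂ] X) {p : X × (X →L[ℂ] ℂ)} (hu : p.1 ≠ 0)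
    (hv : p.2 ≠ 0) :
    ∃ K : ℝ, ∀ κ : ℂ, K ≤ ‖κ‖ → ∃ V : Submodule ℂ X, IsClosed (V : Set X) ∧ V ≠ ⊥ ∧ V ≠ ⊤ ∧
      Inv (T + κ • rk p) V := by
  classical
  have hρ : ∀ᶠ z in Bornology.cobounded ℂ, z ∈ resolventSet ℂ T := by
    have := spectrum.eventually_isUnit_resolvent (𝕜 := ℂ) T
    exact this.mono fun z hz => spectrum.isUnit_resolvent.mpr hz
  set f : ℂ → ℂ := Function.update (fun w => fn T p w⁻¹) 0 0 with hf
  have hf0 : f 0 = 0 := by simp [hf]
  have hfn : ∀ w, w ≠ 0 → f w = fn T p w⁻¹ := fun w hw => by simp [hf, hw]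
  have hW : ∀ᶠ w in 𝓝 (0 : ℂ), w ≠ 0 → w⁻¹ ∈ resolventSet ℂ T := by
    have h1 := (tendsto_inv₀_nhdsNE_zero (α := ℂ)).eventually hρ
    rw [eventually_nhdsWithin_iff] at h1
    exact h1
  have han : AnalyticAt ℂ f 0 := by
    obtain ⟨s, hs, hso, h0s⟩ := _root_.eventually_nhds_iff.mp hW
    have hsn : s ∈ 𝓝 (0 : ℂ) := hso.mem_nhds h0s
    refine DifferentiableOn.analyticAt (s := s) ?_ hsn
    rw [← Complex.differentiableOn_compl_singleton_and_continuousAt_iff hsn]
    constructor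
    · intro w hw
      have hw0 : w ≠ 0 := hw.2
      have h2 : f =ᶠ[𝓝 w] fun w => fn T p w⁻¹ := by
        filter_upwards [isOpen_ne.mem_nhds hw0] with y hy using hfn y hy
      have h3 : DifferentiableAt ℂ (fun w => fn T p w⁻¹) w :=
        (fn_diff p (hs w hw.1 hw0)).comp w (differentiableAt_inv hw0)
      exact (h3.congr_of_eventuallyEq h2).differentiableWithinAt
    · rw [ContinuousAt, hf0, hf]
      have h1 : Tendsto (fun w => fn T p w⁻¹) (𝓝[≠] (0 : ℂ)) (𝓝 0) :=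
        (fn_lim T p).comp (tendsto_inv₀_nhdsNE_zero (α := ℂ))
      have h2 := continuousAt_update_same.mpr h1
      rw [ContinuousAt, Function.update_self] at h2
      exact h2
  rcases han.eventually_constant_or_nhds_le_map_nhds with h | h
  · -- the function vanishes near infinity
    rw [hf0] at h
    have hz : ∀ᶠ z in Bornology.cobounded ℂ, fn T p z = 0 := by
      have h1 : ∀ᶠ z in Bornology.cobounded ℂ, f z⁻¹ = 0 :=
        (tendsto_inv₀_cobounded (α := ℂ)).eventually h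
      have h2 : ∀ᶠ z : ℂ in Bornology.cobounded ℂ, z ≠ 0 := Bornology.eventually_ne_cobounded 0
      filter_upwards [h1, h2] with z h3 h4
      rwa [hfn _ (inv_ne_zero h4), inv_inv] at h3
    have hk : ∀ k : ℕ, ∀ᶠ z in Bornology.cobounded ℂ, fn T ((T ^ k) p.1, p.2) z = 0 := by
      intro k
      induction k with
      | zero => simpa using hz
      | succ k ih =>
        have h1 : ∀ᶠ z in Bornology.cobounded ℂ,
            fn T ((T ^ (k + 1)) p.1, p.2) z = - p.2 ((T ^ k) p.1) := by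
          filter_upwards [ih, hρ] with z h2 h3
          have h4 : (T ^ (k + 1)) p.1 = T ((T ^ k) p.1) := by rw [pow_succ', mul_apply_eq_comp]
          have h5 : p.2 (resolvent T z ((T ^ k) p.1)) = 0 := h2
          simp only [fn]
          rw [h4, res_comm h3, map_sub, map_smul, h5, smul_zero, zero_sub]
        have h2 : - p.2 ((T ^ k) p.1) = 0 := by
          have h3 : Tendsto (fun z => fn T ((T ^ (k + 1)) p.1, p.2) z) (Bornology.cobounded ℂ)
              (𝓝 (- p.2 ((T ^ k) p.1))) := tendsto_const_nhds.congr' (h1.mono fun z hz => hz.symm)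
          exact tendsto_nhds_unique h3 (fn_lim T _)
        rw [h2] at h1
        exact h1
    have hv0 : ∀ k : ℕ, p.2 ((T ^ k) p.1) = 0 := by
      intro k
      have h1 : ∀ᶠ z in Bornology.cobounded ℂ,
          fn T ((T ^ (k + 1)) p.1, p.2) z = - p.2 ((T ^ k) p.1) := by
        filter_upwards [hk k, hρ] with z h2 h3
        have h4 : (T ^ (k + 1)) p.1 = T ((T ^ k) p.1) := by rw [pow_succ', mul_apply_eq_comp]
        have h5 : p.2 (resolvent T z ((T ^ k) p.1)) = 0 := h2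
        simp only [fn]
        rw [h4, res_comm h3, map_sub, map_smul, h5, smul_zero, zero_sub]
      have h3 : Tendsto (fun z => fn T ((T ^ (k + 1)) p.1, p.2) z) (Bornology.cobounded ℂ)
          (𝓝 (- p.2 ((T ^ k) p.1))) := tendsto_const_nhds.congr' (h1.mono fun z hz => hz.symm)
      exact neg_eq_zero.mp (tendsto_nhds_unique h3 (fn_lim T _))
    set V : Submodule ℂ X :=
      (Submodule.span ℂ (range fun k : ℕ => (T ^ k) p.1)).topologicalClosure with hV
    have hVker : V ≤ LinearMap.ker p.2.toLinearMap := by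
      refine Submodule.topologicalClosure_minimal _ ?_ p.2.isClosed_ker
      rw [Submodule.span_le]
      rintro _ ⟨k, rfl⟩
      exact hv0 k
    have huV : p.1 ∈ V := (Submodule.le_topologicalClosure _) (Submodule.subset_span ⟨0, by simp⟩)
    refine ⟨0, fun κ _ => ⟨V, Submodule.isClosed_topologicalClosure _, ?_, ?_, ?_⟩⟩
    · intro h0
      rw [h0, Submodule.mem_bot] at huV
      exact hu huV
    · intro h0
      apply hv
      ext x
      have : x ∈ V := h0 ▸ Submodule.mem_top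
      exact hVker this
    · have hcl : IsClosed ((V.comap T.toLinearMap : Submodule ℂ X) : Set X) :=
        (Submodule.isClosed_topologicalClosure _).preimage T.continuous
      have hTV : V ≤ V.comap T.toLinearMap := by
        refine Submodule.topologicalClosure_minimal _ ?_ hcl
        rw [Submodule.span_le]
        rintro _ ⟨k, rfl⟩
        refine (Submodule.le_topologicalClosure _) (Submodule.subset_span ⟨k + 1, ?_⟩)
        simp only [pow_succ', mul_apply_eq_comp]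
        rfl
      intro x hx
      have h1 : p.2 x = 0 := hVker hx
      rw [add_apply, smul_apply, rk_apply, h1, zero_smul, smul_zero, add_zero]
      exact hTV hx
  · rw [hf0] at h
    have h1 : f '' {w | w ≠ 0 → w⁻¹ ∈ resolventSet ℂ T} ∈ 𝓝 (0 : ℂ) := h (image_mem_map hW)
    obtain ⟨δ, hδ, hball⟩ := Metric.mem_nhds_iff.mp h1
    refine ⟨2 / δ, fun κ hκ => ?_⟩
    have hκpos : 0 < ‖κ‖ := lt_of_lt_of_le (by positivity) hκ
    have hκ0 : κ ≠ 0 := norm_pos_iff.mp hκpos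
    have h2 : κ⁻¹ ∈ ball (0 : ℂ) δ := by
      rw [mem_ball_zero_iff, norm_inv, inv_lt_comm₀ hκpos hδ]
      refine lt_of_lt_of_le ?_ hκ
      rw [inv_eq_one_div]
      gcongr
      norm_num
    obtain ⟨w, hw, hfw⟩ := hball h2
    have hw0 : w ≠ 0 := by
      rintro rfl
      rw [hf0] at hfw
      exact inv_ne_zero hκ0 hfw.symm
    have hz := hw hw0
    rw [hfn w hw0] at hfw
    have h3 : fn T (κ • p.1, p.2) w⁻¹ = 1 := by
      have h4 : fn T (κ • p.1, p.2) w⁻¹ = κ * fn T p w⁻¹ := by simp [fn]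
      rw [h4, hfw, mul_inv_cancel₀ hκ0]
    have h5 := eig_vec hz h3
    have h6 := eig_vec_ne h3
    rw [rk_smul] at h5
    set x := resolvent T w⁻¹ (κ • p.1) with hx
    refine ⟨Submodule.span ℂ {x}, Submodule.closed_of_finiteDimensional _, ?_, ?_, ?_⟩
    · rw [Ne, Submodule.span_singleton_eq_bot]
      exact h6
    · intro h0
      have h8 : (⊤ : Submodule ℂ X).FG := by
        rw [← h0]
        exact ⟨{x}, by simp⟩
      exact hX (Module.finite_def.mpr h8)
    · intro y hy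
      obtain ⟨c, rfl⟩ := Submodule.mem_span_singleton.mp hy
      rw [map_smul]
      have h7 : (T + κ • rk p) x = w⁻¹ • x := h5
      rw [h7]
      exact Submodule.smul_mem _ _ (Submodule.smul_mem _ _ (Submodule.mem_span_singleton_self x))

end Pool.Agent.H731_RK
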