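import Pool.Agent.H731_RK.Alg

open Topology Metric Set Filter
open Polynomial (aeval)

namespace Pool.Agent.H731_RK

/-- A compact set whose frontier points are isolated in it is finite. -/
lemma finite_of_isolated {S : Set ℂ} (hS : IsCompact S)
    (h : ∀ z ∈ frontier S, ∀ᶠ w in 𝓝[≠] z, w ∉ S) : S.Finite := by
  have hint : interior S = ∅ := by
    have h1 : frontier (interior S) = ∅ := by
      rw [eq_empty_iff_forall_notMem]
      intro z hz
      have hzS : z ∈ frontier S := frontier_interior_subset hz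
      have hzi : z ∉ interior S := fun hi => hzS.2 hi
      have h2 := h z hzS
      have h3 : ∃ᶠ w in 𝓝 z, w ∈ interior S := mem_closure_iff_frequently.mp hz.1
      have h4 : ∃ᶠ w in 𝓝[≠] z, w ∈ S := by
        rw [frequently_nhdsWithin_iff]
        refine h3.mono fun w hw => ⟨interior_subset hw, ?_⟩
        rintro rfl
        exact hzi hw
      exact h4 h2
    have h2 : IsClopen (interior S) := isClopen_iff_frontier_eq_empty.mpr h1
    rcases isClopen_iff.mp h2 with h3 | h3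
    · exact h3
    · exfalso
      have h4 : S = univ := univ_subset_iff.mp (h3 ▸ interior_subset)
      rw [h4] at hS
      exact noncompact_univ ℂ hS
  have hfr : frontier S = S := by
    rw [hS.isClosed.frontier_eq, hint, sdiff_empty]
  have h5 : ∀ z ∈ S, ∃ U ∈ 𝓝 z, ∀ w ∈ U, w ∈ S → w = z := by
    intro z hz
    have h6 := h z (hfr.symm ▸ hz)
    rw [eventually_nhdsWithin_iff] at h6
    exact ⟨_, h6, fun w hw hwS => by
      by_contra hne
      exact hw hne hwS⟩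
  choose! U hU hU2 using h5
  obtain ⟨t, ht, hcov⟩ := hS.elim_nhds_subcover U hU
  refine t.finite_toSet.subset fun w hw => ?_
  obtain ⟨z, hz, hwz⟩ := mem_iUnion₂.mp (hcov hw)
  rw [hU2 z (ht z hz) w hwz hw]
  exact hz

variable {X : Type*} [NormedAddCommGroup X] [NormedSpace ℂ X]

lemma pow_bound (T : X →L[ℂ] X) (μ : ℂ) (n : ℕ) : ∃ D : ℝ, 0 ≤ D ∧ ∀ z ∈ resolventSet ℂ T,
    ‖z - μ‖ ≤ 1 → ‖(T - algebraMap ℂ (X →L[ℂ] X) μ) ^ n * resolvent T z‖
      ≤ ‖resolvent T z‖ * ‖z - μ‖ ^ n + D := by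
  induction n with
  | zero => exact ⟨0, le_rfl, fun z _ _ => by simp⟩
  | succ n ih =>
    obtain ⟨D, hD, h⟩ := ih
    refine ⟨D + ‖(T - algebraMap ℂ (X →L[ℂ] X) μ) ^ n‖, by positivity, fun z hz hzμ => ?_⟩
    have h1 : (T - algebraMap ℂ (X →L[ℂ] X) μ) * resolvent T z
        = (z - μ) • resolvent T z - 1 := by
      ext x
      rw [mul_apply_eq_comp, sub_apply, alg_apply, res_right hz, sub_apply, smul_apply,
        one_apply_eq_self, sub_smul]
      abel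
    rw [pow_succ, mul_assoc, h1, mul_sub, mul_smul_comm, mul_one]
    have h2 := h z hz hzμ
    calc ‖(z - μ) • ((T - algebraMap ℂ (X →L[ℂ] X) μ) ^ n * resolvent T z)
          - (T - algebraMap ℂ (X →L[ℂ] X) μ) ^ n‖
        ≤ ‖(z - μ) • ((T - algebraMap ℂ (X →L[ℂ] X) μ) ^ n * resolvent T z)‖
          + ‖(T - algebraMap ℂ (X →L[ℂ] X) μ) ^ n‖ := norm_sub_le _ _
      _ ≤ ‖z - μ‖ * (‖resolvent T z‖ * ‖z - μ‖ ^ n + D)
          + ‖(T - algebraMap ℂ (X →L[ℂ] X) μ) ^ n‖ := by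
        rw [norm_smul]; gcongr
      _ = ‖resolvent T z‖ * ‖z - μ‖ ^ (n + 1) + ‖z - μ‖ * D
          + ‖(T - algebraMap ℂ (X →L[ℂ] X) μ) ^ n‖ := by ring
      _ ≤ ‖resolvent T z‖ * ‖z - μ‖ ^ (n + 1) + 1 * D
          + ‖(T - algebraMap ℂ (X →L[ℂ] X) μ) ^ n‖ := by gcongr
      _ = _ := by ring

variable [CompleteSpace X]

/-- If all boundary points of the spectrum are poles, the operator is algebraic. -/
lemma alg_of_poles (T : X →L[ℂ] X) (h : ∀ z ∈ frontier (spectrum ℂ T), AtMostPole T z) :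
    ∃ q : Polynomial ℂ, q ≠ 0 ∧ aeval T q = 0 := by
  classical
  have hS := spectrum.isCompact (𝕜 := ℂ) T
  have hSc := spectrum.isClosed (𝕜 := ℂ) T
  have hiso : ∀ z ∈ frontier (spectrum ℂ T), ∀ᶠ w in 𝓝[≠] z, w ∉ spectrum ℂ T := by
    intro z hz
    obtain ⟨n, C, hC⟩ := h z hz
    exact hC.mono fun w hw => fun h2 => h2 hw.1
  have hfin := finite_of_isolated hS hiso
  set t : Finset ℂ := hfin.toFinset with ht
  have htm : ∀ μ, μ ∈ t ↔ μ ∈ spectrum ℂ T := fun μ => by rw [ht, Set.Finite.mem_toFinset]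
  have hint : interior (spectrum ℂ T) = ∅ :=
    interior_eq_empty_iff_dense_compl.mpr (hfin.countable.dense_compl ℂ)
  have hfr : frontier (spectrum ℂ T) = spectrum ℂ T := by
    rw [hSc.frontier_eq, hint, sdiff_empty]
  have hn : ∀ μ ∈ t, AtMostPole T μ := fun μ hμ => h μ (hfr.symm ▸ (htm μ).mp hμ)
  choose! n C hC using hn
  set q : Polynomial ℂ := ∏ μ ∈ t, (Polynomial.X - Polynomial.C μ) ^ n μ with hq
  have hq0 : q ≠ 0 := Finset.prod_ne_zero_iff.mpr fun μ _ =>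
    pow_ne_zero _ (Polynomial.X_sub_C_ne_zero μ)
  refine ⟨q, hq0, ?_⟩
  set B : X →L[ℂ] X := aeval T q with hB
  have hρ : ∀ z, z ∉ spectrum ℂ T → z ∈ resolventSet ℂ T := fun z hz => not_not.mp hz
  -- `B R(z)` is bounded near the spectrum
  have hbd : ∀ μ ∈ t, ∃ M : ℝ, 0 ≤ M ∧ ∀ᶠ z in 𝓝[≠] μ, ‖B * resolvent T z‖ ≤ M := by
    intro μ hμ
    obtain ⟨D, hD, hDb⟩ := pow_bound T μ (n μ)
    set Q : X →L[ℂ] X := aeval T (∏ μ ∈ t.erase μ, (Polynomial.X - Polynomial.C μ) ^ n μ) with hQ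
    have hfac : B = Q * (T - algebraMap ℂ (X →L[ℂ] X) μ) ^ n μ := by
      rw [hB, hq, ← Finset.prod_erase_mul _ _ hμ, map_mul, map_pow, map_sub, Polynomial.aeval_X,
        Polynomial.aeval_C]
    refine ⟨‖Q‖ * (|C μ| + D), by positivity, ?_⟩
    have hnear : ∀ᶠ z in 𝓝[≠] μ, ‖z - μ‖ ≤ 1 := by
      have : closedBall μ 1 ∈ 𝓝 μ := closedBall_mem_nhds μ one_pos
      filter_upwards [nhdsWithin_le_nhds this] with z hz
      rwa [mem_closedBall, dist_eq_norm] at hz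
    filter_upwards [hC μ hμ, hnear] with z h1 h2
    rw [hfac, mul_assoc]
    refine (norm_mul_le _ _).trans ?_
    gcongr
    refine (hDb z h1.1 h2).trans ?_
    gcongr
    exact h1.2.trans (le_abs_self _)
  choose! M hM0 hM using hbd
  -- behaviour at infinity
  obtain ⟨A, hA⟩ := (spectrum.resolvent_isBigO_inv (𝕜 := ℂ) T).bound
  rw [← comap_norm_atTop, eventually_comap] at hA
  obtain ⟨ρ₁, hρ₁⟩ := eventually_atTop.mp hA
  -- scalar version
  have hzero : ∀ (x : X) (y : X →L[ℂ] ℂ) (z : ℂ), z ∉ spectrum ℂ T →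
      y (B (resolvent T z x)) = 0 := by
    intro x y z hz
    set f : ℂ → ℂ := fun z => y (B (resolvent T z x)) with hf
    set m := t.card + 1 with hm
    set K : ℂ → ℂ := fun z => f z ^ m * ∏ μ ∈ t, (z - μ) with hK
    have hfd : ∀ w, w ∉ spectrum ℂ T → DifferentiableAt ℂ f w := by
      intro w hw
      exact fn_diff (x, y.comp B) (hρ w hw)
    have hfb : ∀ w, ‖f w‖ ≤ ‖y‖ * (‖B * resolvent T w‖ * ‖x‖) := by
      intro w
      refine (y.le_opNorm _).trans ?_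
      gcongr
      have := (B * resolvent T w).le_opNorm x
      rwa [mul_apply_eq_comp] at this
    have hKd : ∀ w, w ∉ spectrum ℂ T → DifferentiableAt ℂ K w := by
      intro w hw
      refine ((hfd w hw).pow m).mul ?_
      fun_prop
    have hK0 : ∀ μ ∈ spectrum ℂ T, ∀ P : Set ℂ,
        Tendsto K (𝓝[(spectrum ℂ T)ᶜ ∩ P] μ) (𝓝 0) := by
      intro μ hμ P
      have hμt : μ ∈ t := (htm μ).mpr hμ
      rw [tendsto_zero_iff_norm_tendsto_zero]
      have h1 : Tendsto (fun w => (‖y‖ * (M μ * ‖x‖)) ^ m * ‖∏ μ ∈ t, (w - μ)‖)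
          (𝓝[(spectrum ℂ T)ᶜ ∩ P] μ) (𝓝 0) := by
        have : ContinuousAt (fun w : ℂ => (‖y‖ * (M μ * ‖x‖)) ^ m * ‖∏ μ ∈ t, (w - μ)‖) μ := by
          fun_prop
        have h2 := this.tendsto
        have h3 : ∏ μ' ∈ t, (μ - μ') = 0 := Finset.prod_eq_zero hμt (sub_self μ)
        rw [h3, norm_zero, mul_zero] at h2
        exact h2.mono_left nhdsWithin_le_nhds
      refine squeeze_zero' (Eventually.of_forall fun _ => norm_nonneg _) ?_ h1
      have h4 : ∀ᶠ w in 𝓝[(spectrum ℂ T)ᶜ ∩ P] μ, ‖B * resolvent T w‖ ≤ M μ := by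
        refine (hM μ hμt).filter_mono (nhdsWithin_mono _ fun w hw => ?_)
        rintro rfl
        exact hw.1 hμ
      filter_upwards [h4] with w hw
      simp only [hK, norm_mul, norm_pow]
      have h5 := (hfb w).trans (mul_le_mul_of_nonneg_left
        (mul_le_mul_of_nonneg_right hw (norm_nonneg x)) (norm_nonneg y))
      gcongr
    have hlim : ∀ ρ : ℝ, ρ₁ ≤ ρ → ‖T‖ < ρ → ‖z‖ < ρ → 0 < ρ →
        ‖K z‖ ≤ (‖y‖ * (‖B‖ * |A| * ‖x‖)) ^ m * 2 ^ t.card / ρ := by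
      intro ρ h1 h2 h3 h4
      refine maxp hSc (c := 0) (r := ρ) (fun w _ hw => hKd w hw) (fun μ hμ _ => hK0 μ hμ _) ?_
        (by positivity) z (by simpa using h3) hz
      intro w hw hwS
      have hwn : ‖w‖ = ρ := by simpa using hw
      have h5 : ‖resolvent T w‖ ≤ |A| * ρ⁻¹ := by
        have h6 := hρ₁ ρ h1 w hwn
        rw [norm_inv, hwn] at h6
        refine h6.trans ?_
        gcongr
        exact le_abs_self A
      have h6 : ‖f w‖ ≤ (‖y‖ * (‖B‖ * |A| * ‖x‖)) / ρ := by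
        refine (hfb w).trans ?_
        calc ‖y‖ * (‖B * resolvent T w‖ * ‖x‖) ≤ ‖y‖ * ((‖B‖ * (|A| * ρ⁻¹)) * ‖x‖) := by
              gcongr
              exact (norm_mul_le _ _).trans (by gcongr)
          _ = (‖y‖ * (‖B‖ * |A| * ‖x‖)) / ρ := by ring
      have h7 : ‖∏ μ ∈ t, (w - μ)‖ ≤ (2 * ρ) ^ t.card := by
        rw [norm_prod, ← Finset.prod_const]
        refine Finset.prod_le_prod (fun _ _ => norm_nonneg _) fun μ hμ => ?_
        have h8 : ‖μ‖ ≤ ‖T‖ * ‖(1 : X →L[ℂ] X)‖ := spectrum.norm_le_norm_mul_of_mem ((htm μ).mp hμ)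
        have h9 : ‖(1 : X →L[ℂ] X)‖ ≤ 1 := ContinuousLinearMap.norm_id_le
        have h10 : ‖T‖ * ‖(1 : X →L[ℂ] X)‖ ≤ ‖T‖ * 1 := by gcongr
        have h11 := norm_sub_le w μ
        rw [hwn] at h11
        linarith
      simp only [hK, norm_mul, norm_pow]
      calc ‖f w‖ ^ m * ‖∏ μ ∈ t, (w - μ)‖
          ≤ ((‖y‖ * (‖B‖ * |A| * ‖x‖)) / ρ) ^ m * (2 * ρ) ^ t.card := by gcongr
        _ = (‖y‖ * (‖B‖ * |A| * ‖x‖)) ^ m * 2 ^ t.card / ρ := by
          rw [hm, div_pow, mul_pow 2 ρ]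
          field_simp
          ring
    have hlt : Tendsto (fun ρ : ℝ => (‖y‖ * (‖B‖ * |A| * ‖x‖)) ^ m * 2 ^ t.card / ρ) atTop (𝓝 0) :=
      tendsto_const_nhds.div_atTop tendsto_id
    have h5 : ‖K z‖ ≤ 0 := by
      refine ge_of_tendsto hlt ?_
      filter_upwards [eventually_ge_atTop ρ₁, eventually_gt_atTop ‖T‖, eventually_gt_atTop ‖z‖,
        eventually_gt_atTop 0] with ρ h1 h2 h3 h4 using hlim ρ h1 h2 h3 h4
    have h6 : K z = 0 := norm_le_zero_iff.mp h5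
    have h7 : ∏ μ ∈ t, (z - μ) ≠ 0 := by
      refine Finset.prod_ne_zero_iff.mpr fun μ hμ => ?_
      rw [sub_ne_zero]
      rintro rfl
      exact hz ((htm _).mp hμ)
    have h8 : f z ^ m = 0 := (mul_eq_zero.mp h6).resolve_right h7
    exact pow_eq_zero_iff (by omega) |>.mp h8
  -- conclusion
  have hz : ((‖T‖ + 1 : ℝ) : ℂ) ∉ spectrum ℂ T := by
    intro h
    have h1 := spectrum.norm_le_norm_mul_of_mem h
    have h9 : ‖(1 : X →L[ℂ] X)‖ ≤ 1 := ContinuousLinearMap.norm_id_le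
    have h10 : ‖T‖ * ‖(1 : X →L[ℂ] X)‖ ≤ ‖T‖ * 1 := by gcongr
    rw [Complex.norm_real, Real.norm_of_nonneg (by positivity)] at h1
    linarith
  ext x
  obtain ⟨g, -, hg⟩ := exists_dual_vector'' ℂ (B x)
  have h1 := hzero (((‖T‖ + 1 : ℝ) : ℂ) • x - T x) g _ hz
  rw [res_left (hρ _ hz), hg] at h1
  have h2 : ‖B x‖ = 0 := by
    exact Complex.ofReal_eq_zero.mp h1
  rw [norm_eq_zero.mp h2]
  rfl

end Pool.Agent.H731_RK
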