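import Pool.Agent.H731_RK.CA

open Topology Metric Set Filter

namespace Pool.Agent.H731_RK

variable {X : Type*} [NormedAddCommGroup X] [NormedSpace ℂ X]

/-- The operator `x ↦ v(x) u` of rank at most one, where `p = (u, v)`. -/
noncomputable def rk (p : X × (X →L[ℂ] ℂ)) : X →L[ℂ] X := p.2.smulRight p.1

@[simp] lemma rk_apply (p : X × (X →L[ℂ] ℂ)) (x : X) : rk p x = p.2 x • p.1 := rfl

/-- The function `z ↦ v((z - T)⁻¹ u)`, where `p = (u, v)`. -/
noncomputable def fn (T : X →L[ℂ] X) (p : X × (X →L[ℂ] ℂ)) (z : ℂ) : ℂ := p.2 (resolvent T z p.1)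

section basics

lemma res_mul {T : X →L[ℂ] X} {z : ℂ} (hz : z ∈ resolventSet ℂ T) :
    resolvent T z * (algebraMap ℂ (X →L[ℂ] X) z - T) = 1 :=
  Ring.inverse_mul_cancel _ hz

lemma mul_res {T : X →L[ℂ] X} {z : ℂ} (hz : z ∈ resolventSet ℂ T) :
    (algebraMap ℂ (X →L[ℂ] X) z - T) * resolvent T z = 1 :=
  Ring.mul_inverse_cancel _ hz

lemma alg_apply (z : ℂ) (x : X) : algebraMap ℂ (X →L[ℂ] X) z x = z • x := by
  rw [Algebra.algebraMap_eq_smul_one]; rfl

lemma res_left {T : X →L[ℂ] X} {z : ℂ} (hz : z ∈ resolventSet ℂ T) (x : X) :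
    resolvent T z (z • x - T x) = x := by
  have h := congrArg (fun A : X →L[ℂ] X => A x) (res_mul hz)
  simpa [mul_apply_eq_comp, alg_apply] using h

lemma res_right {T : X →L[ℂ] X} {z : ℂ} (hz : z ∈ resolventSet ℂ T) (x : X) :
    T (resolvent T z x) = z • resolvent T z x - x := by
  have h := congrArg (fun A : X →L[ℂ] X => A x) (mul_res hz)
  simp only [mul_apply_eq_comp, sub_apply, alg_apply,
    one_apply_eq_self] at h
  rw [sub_eq_iff_eq_add] at h
  rw [h]; abel

lemma res_comm {T : X →L[ℂ] X} {z : ℂ} (hz : z ∈ resolventSet ℂ T) (x : X) :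
    resolvent T z (T x) = z • resolvent T z x - x := by
  have h := res_left hz x
  rw [map_sub, map_smul, sub_eq_iff_eq_add] at h
  rw [h]; abel

/-- An eigenvector of the perturbed operator. -/
lemma eig_vec {T : X →L[ℂ] X} {p : X × (X →L[ℂ] ℂ)} {z : ℂ} (hz : z ∈ resolventSet ℂ T)
    (h1 : fn T p z = 1) : (T + rk p) (resolvent T z p.1) = z • resolvent T z p.1 := by
  rw [add_apply, rk_apply, res_right hz]
  have : p.2 (resolvent T z p.1) = 1 := h1
  rw [this, one_smul]; abel

lemma eig_vec_ne {T : X →L[ℂ] X} {p : X × (X →L[ℂ] ℂ)} {z : ℂ}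
    (h1 : fn T p z = 1) : resolvent T z p.1 ≠ 0 := by
  intro h
  rw [fn, h, map_zero] at h1
  exact zero_ne_one h1

/-- The eigenspace is a line. -/
lemma eig_line {T : X →L[ℂ] X} {p : X × (X →L[ℂ] ℂ)} {z : ℂ} (hz : z ∈ resolventSet ℂ T)
    {x : X} (hx : (T + rk p) x = z • x) : x = p.2 x • resolvent T z p.1 := by
  rw [add_apply, rk_apply] at hx
  have h := res_left hz x
  rw [← hx, add_sub_cancel_left, map_smul] at h
  exact h.symm

/-- An eigenfunctional of the perturbed operator. -/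
lemma eig_fun {T : X →L[ℂ] X} {p : X × (X →L[ℂ] ℂ)} {z : ℂ} (hz : z ∈ resolventSet ℂ T)
    (h1 : fn T p z = 1) (x : X) : p.2 (resolvent T z ((T + rk p) x)) = z * p.2 (resolvent T z x) := by
  rw [add_apply, rk_apply, map_add, map_smul, res_comm hz, map_add, map_sub,
    map_smul, map_smul]
  have : p.2 (resolvent T z p.1) = 1 := h1
  rw [this]; simp

end basics

variable [CompleteSpace X]

lemma res_dist {T : X →L[ℂ] X} {z μ : ℂ} (hz : z ∈ resolventSet ℂ T) (hμ : μ ∈ spectrum ℂ T) :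
    1 ≤ ‖resolvent T z‖ * ‖z - μ‖ := by
  by_contra hlt
  push Not at hlt
  apply hμ
  have h1 : ‖(z - μ) • resolvent T z‖ < 1 := by rw [norm_smul, mul_comm]; exact hlt
  have h2 : IsUnit (1 - (z - μ) • resolvent T z) := isUnit_one_sub_of_norm_lt_one h1
  have h3 : algebraMap ℂ (X →L[ℂ] X) μ - T
      = (algebraMap ℂ (X →L[ℂ] X) z - T) * (1 - (z - μ) • resolvent T z) := by
    rw [mul_sub, mul_smul_comm, mul_res hz, mul_one, Algebra.algebraMap_eq_smul_one,
      Algebra.algebraMap_eq_smul_one, sub_smul]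
    abel
  rw [spectrum.mem_resolventSet_iff, h3]
  exact IsUnit.mul hz h2

lemma fn_diff {T : X →L[ℂ] X} (p : X × (X →L[ℂ] ℂ)) {z : ℂ} (hz : z ∈ resolventSet ℂ T) :
    DifferentiableAt ℂ (fn T p) z := by
  have h := (spectrum.hasDerivAt_resolvent_const_left (a := T) hz).differentiableAt
  have h2 : DifferentiableAt ℂ (fun z => resolvent T z p.1) z :=
    (ContinuousLinearMap.apply ℂ X p.1).differentiableAt.comp z h
  exact p.2.differentiableAt.comp z h2

/-- Joint continuity. -/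
lemma fn_cont {T : X →L[ℂ] X} (p : X × (X →L[ℂ] ℂ)) {z : ℂ} (hz : z ∈ resolventSet ℂ T) :
    ContinuousAt (fun q : (X × (X →L[ℂ] ℂ)) × ℂ => fn T q.1 q.2) (p, z) := by
  have h := (spectrum.hasDerivAt_resolvent_const_left (a := T) hz).continuousAt
  have h1 : ContinuousAt (fun q : (X × (X →L[ℂ] ℂ)) × ℂ => resolvent T q.2) (p, z) :=
    ContinuousAt.comp (f := Prod.snd) (g := resolvent T) h continuousAt_snd
  have h2 : ContinuousAt (fun q : (X × (X →L[ℂ] ℂ)) × ℂ => resolvent T q.2 q.1.1) (p, z) :=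
    h1.clm_apply (by fun_prop)
  exact ContinuousAt.clm_apply (by fun_prop) h2

/-- On some disc contained in `N` and in the resolvent set, the function `fn T p - 1` is smaller at the
centre than on the boundary. -/
def Good (T : X →L[ℂ] X) (p : X × (X →L[ℂ] ℂ)) (N : Set ℂ) : Prop :=
  ∃ (c : ℂ) (r : ℝ), 0 < r ∧ closedBall c r ⊆ N ∩ resolventSet ℂ T ∧
    ∀ z ∈ sphere c r, ‖fn T p c - 1‖ < ‖fn T p z - 1‖

lemma good_zero {T : X →L[ℂ] X} {p : X × (X →L[ℂ] ℂ)} {N : Set ℂ} (h : Good T p N) :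
    ∃ z ∈ N, z ∈ resolventSet ℂ T ∧ fn T p z = 1 := by
  obtain ⟨c, r, hr, hsub, hlt⟩ := h
  by_contra hno
  push Not at hno
  have hne : ∀ z ∈ closedBall c r, fn T p z - 1 ≠ 0 := fun z hz =>
    sub_ne_zero.mpr (hno z (hsub hz).1 (hsub hz).2)
  have hd : ∀ z ∈ closedBall c r, DifferentiableAt ℂ (fun z => (fn T p z - 1)⁻¹) z := fun z hz =>
    ((fn_diff p (hsub hz).2).sub_const 1).inv (hne z hz)
  have hdc : DiffContOnCl ℂ (fun z => (fn T p z - 1)⁻¹) (ball c r) := by
    refine ⟨fun z hz => (hd z (ball_subset_closedBall hz)).differentiableWithinAt, fun z hz => ?_⟩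
    exact (hd z (closure_ball_subset_closedBall hz)).continuousAt.continuousWithinAt
  -- the minimum of `‖fn - 1‖` on the circle
  obtain ⟨w, hw, hmin⟩ := (isCompact_sphere c r).exists_isMinOn (NormedSpace.sphere_nonempty.mpr hr.le)
    (f := fun z => ‖fn T p z - 1‖) (fun z hz => (((fn_diff p
      (hsub (sphere_subset_closedBall hz)).2).sub_const 1).continuousAt.norm).continuousWithinAt)
  have hwpos : 0 < ‖fn T p w - 1‖ := norm_pos_iff.mpr (hne w (sphere_subset_closedBall hw))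
  have h1 := Complex.norm_le_of_forall_mem_frontier_norm_le isBounded_ball hdc
    (C := ‖fn T p w - 1‖⁻¹) (fun z hz => by
      have hz' : z ∈ sphere c r := frontier_ball_subset_sphere hz
      rw [norm_inv]
      exact inv_anti₀ hwpos (hmin hz')) (subset_closure (mem_ball_self hr))
  rw [norm_inv] at h1
  have hcpos : 0 < ‖fn T p c - 1‖ := norm_pos_iff.mpr (hne c (mem_closedBall_self hr.le))
  have h2 := (inv_le_inv₀ hcpos hwpos).mp h1
  exact absurd (hlt w hw) (not_lt.mpr h2)

lemma good_open (T : X →L[ℂ] X) (N : Set ℂ) : IsOpen {p : X × (X →L[ℂ] ℂ) | Good T p N} := by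
  rw [isOpen_iff_mem_nhds]
  rintro p ⟨c, r, hr, hsub, hlt⟩
  have h1 : ∀ᶠ q in 𝓝 p, ∀ z ∈ sphere c r, ‖fn T q c - 1‖ < ‖fn T q z - 1‖ := by
    refine (isCompact_sphere c r).eventually_forall_of_forall_eventually fun z hz => ?_
    have hc : ContinuousAt (fun q : (X × (X →L[ℂ] ℂ)) × ℂ => ‖fn T q.1 c - 1‖) (p, z) := by
      have h3 : ContinuousAt (fun q : (X × (X →L[ℂ] ℂ)) × ℂ => fn T q.1 c) (p, z) :=
        ContinuousAt.comp (f := fun q : (X × (X →L[ℂ] ℂ)) × ℂ => (q.1, c))
          (g := fun q : (X × (X →L[ℂ] ℂ)) × ℂ => fn T q.1 q.2)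
          (fn_cont p (hsub (mem_closedBall_self hr.le)).2) (by fun_prop)
      exact (h3.sub continuousAt_const).norm
    have hz' : ContinuousAt (fun q : (X × (X →L[ℂ] ℂ)) × ℂ => ‖fn T q.1 q.2 - 1‖) (p, z) :=
      ((fn_cont p (hsub (sphere_subset_closedBall hz)).2).sub continuousAt_const).norm
    exact hc.eventually_lt hz' (hlt z hz)
  filter_upwards [h1] with q hq using ⟨c, r, hr, hsub, hq⟩

lemma good_of_zero {T : X →L[ℂ] X} {p : X × (X →L[ℂ] ℂ)} {N : Set ℂ} (hN : IsOpen N) {c : ℂ}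
    (hcN : c ∈ N) (hc : c ∈ resolventSet ℂ T) (h1 : fn T p c = 1)
    (h2 : ¬ ∀ᶠ w in 𝓝 c, fn T p w = 1) : Good T p N := by
  have hopen : IsOpen (N ∩ resolventSet ℂ T) := hN.inter (spectrum.isOpen_resolventSet T)
  have han : AnalyticAt ℂ (fun w => fn T p w - 1) c := by
    refine DifferentiableOn.analyticAt (s := N ∩ resolventSet ℂ T) (fun w hw => ?_)
      (hopen.mem_nhds ⟨hcN, hc⟩)
    exact ((fn_diff p hw.2).sub_const 1).differentiableWithinAt
  rcases han.eventually_eq_zero_or_eventually_ne_zero with h | h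
  · exact absurd (h.mono fun w hw => sub_eq_zero.mp hw) h2
  · rw [eventually_nhdsWithin_iff, Metric.eventually_nhds_iff] at h
    obtain ⟨δ, hδ, h3⟩ := h
    obtain ⟨e, he, h4⟩ := Metric.isOpen_iff.mp hopen c ⟨hcN, hc⟩
    refine ⟨c, min δ e / 2, by positivity, ?_, fun z hz => ?_⟩
    · refine Subset.trans (closedBall_subset_ball ?_) h4
      have : min δ e ≤ e := min_le_right _ _
      linarith
    · rw [h1, sub_self, norm_zero]
      refine norm_pos_iff.mpr (h3 ?_ ?_)
      · rw [mem_sphere] at hz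
        have : min δ e ≤ δ := min_le_left _ _
        rw [hz]; linarith
      · rintro rfl
        rw [mem_sphere, dist_self] at hz
        have : 0 < min δ e := lt_min hδ he
        linarith

/-- If no pair near `p₀` is good, then the function never takes the value `1`. -/
lemma no_one {T : X →L[ℂ] X} {N : Set ℂ} (hN : IsOpen N) {O : Set (X × (X →L[ℂ] ℂ))}
    (hO : IsOpen O) (hno : ∀ p ∈ O, ¬ Good T p N) {p : X × (X →L[ℂ] ℂ)} (hp : p ∈ O) {c : ℂ}
    (hcN : c ∈ N) (hc : c ∈ resolventSet ℂ T) : fn T p c ≠ 1 := by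
  intro h1
  have hev : ∀ q ∈ O, fn T q c = 1 → ∀ᶠ w in 𝓝 c, fn T q w = 1 := fun q hq h => by
    by_contra h2
    exact hno q hq (good_of_zero hN hcN hc h h2)
  have hev1 := hev p hp h1
  obtain ⟨u, v⟩ := p
  have h1' : v (resolvent T c u) = 1 := h1
  have hopen : ∀ᶠ w in 𝓝 c, w ∈ resolventSet ℂ T := (spectrum.isOpen_resolventSet T).mem_nhds hc
  -- `v ∘ R(c)` vanishes on the kernel of `v`
  have hker : ∀ w : X, v w = 0 → v (resolvent T c w) = 0 := by
    intro w hw
    set x : X := c • w - T w with hx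
    have hcx : resolvent T c x = w := res_left hc w
    have hcont : Continuous fun s : ℂ => ((u + s • x, v) : X × (X →L[ℂ] ℂ)) := by fun_prop
    have hs : ∀ᶠ s : ℂ in 𝓝 0, ((u + s • x, v) : X × (X →L[ℂ] ℂ)) ∈ O := by
      refine hcont.continuousAt.eventually (hO.mem_nhds ?_)
      simpa using hp
    have hs' : ∀ᶠ s : ℂ in 𝓝[≠] 0, ((u + s • x, v) : X × (X →L[ℂ] ℂ)) ∈ O :=
      nhdsWithin_le_nhds hs
    obtain ⟨s, hsO, hs0⟩ := (hs'.and self_mem_nhdsWithin).exists
    have hs0' : s ≠ 0 := hs0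
    have h2 : fn T (u + s • x, v) c = 1 := by
      simp only [fn, map_add, map_smul, hcx, hw, h1']
      simp
    have h3 := hev _ hsO h2
    have h4 : ∀ᶠ z in 𝓝[≠] c, v (resolvent T z w) = 0 := by
      filter_upwards [nhdsWithin_le_nhds h3, nhdsWithin_le_nhds hev1, nhdsWithin_le_nhds hopen,
        self_mem_nhdsWithin] with z h5 h6 h7 h8
      have h9 : v (resolvent T z u) = 1 := h6
      simp only [fn, map_add, map_smul, h9, hx, map_sub, res_comm h7, hw, smul_eq_mul] at h5
      have h10 : s * ((c - z) * v (resolvent T z w)) = 0 := by linear_combination h5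
      have h11 : c - z ≠ 0 := sub_ne_zero.mpr (Ne.symm h8)
      exact ((mul_eq_zero.mp ((mul_eq_zero.mp h10).resolve_left hs0')).resolve_left h11)
    have hca : ContinuousAt (fun z => v (resolvent T z w)) c := (fn_diff (w, v) hc).continuousAt
    have h5 : Tendsto (fun z => v (resolvent T z w)) (𝓝[≠] c) (𝓝 (v (resolvent T c w))) :=
      hca.tendsto.mono_left nhdsWithin_le_nhds
    have h6 : Tendsto (fun z => v (resolvent T z w)) (𝓝[≠] c) (𝓝 0) :=
      tendsto_const_nhds.congr' (h4.mono fun z hz => hz.symm)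
    exact tendsto_nhds_unique h5 h6
  -- hence `v ∘ R(c) = α v`
  set e : X := resolvent T c u with he
  set α : ℂ := v (resolvent T c e) with hα
  have hα' : ∀ y, v (resolvent T c y) = v y * α := by
    intro y
    have h2 := hker (y - v y • e) (by simp [h1'])
    rw [map_sub, map_sub, map_smul, map_smul, smul_eq_mul, sub_eq_zero] at h2
    exact h2
  have hα0 : α ≠ 0 := by
    intro h0
    have := hα' u
    rw [h0, mul_zero] at this
    rw [this] at h1'
    exact zero_ne_one h1'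
  have hvT : ∀ y, v (T y) * α = (c * α - 1) * v y := by
    intro y
    have h2 := hα' (T y)
    rw [res_comm hc, map_sub, map_smul, smul_eq_mul, hα' y] at h2
    linear_combination -h2
  have hfin : ∀ᶠ z in 𝓝 c, v u * α = z * α - (c * α - 1) := by
    filter_upwards [hev1, hopen] with z h5 h6
    have h9 : v (resolvent T z u) = 1 := h5
    have h7 := res_right h6 u
    have h8 := hvT (resolvent T z u)
    rw [h7, map_sub, map_smul, smul_eq_mul, h9] at h8
    linear_combination -h8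
  have hzz : ∀ᶠ z in 𝓝[≠] c, z = c := by
    filter_upwards [nhdsWithin_le_nhds hfin] with z hz
    have h2 := hfin.self_of_nhds
    rw [h2] at hz
    have : (z - c) * α = 0 := by linear_combination -hz
    exact sub_eq_zero.mp ((mul_eq_zero.mp this).resolve_right hα0)
  obtain ⟨z, h2, h3⟩ := (hzz.and self_mem_nhdsWithin).exists
  exact h3 h2

end Pool.Agent.H731_RK
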